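import Pool.Agent.Helper8.EQ.Tau
import Pool.Agent.Helper78.FQ.BdR
import Pool.Agent.Helper50.FQ.Lev

/-!
# Project FQ (MP_0f6f3f_an), layer EQ: the homomorphism for the boundary data

`hppT`: the ping-pong operators for one element `t`. `exists_tau_dir`: the homomorphism `τ : Cs s → 𝕊` for the Lev of the boundary data over a direction `D : DirS G1 F1 par s`.
-/

set_option autoImplicit false
set_option linter.unusedSectionVars false

open Filter Topology MeasureTheory Matrix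

namespace Pool.Agent.Helper8.EQ

open Pool.Agent.Helper84 Pool.Agent.Helper84.GN Pool.Agent.Helper84.GN.S3 Pool.Agent.Helper84.GN.S3.X
open Pool.Agent.Helper84.NI Pool.Agent.Helper84.GVN Pool.Agent.Helper90.RK Pool.Agent.Helper9
open Pool.Agent.Helper96.RK Pool.Agent.Helper66.FR Pool.Agent.Helper84.FR Pool.Agent.Helper55.FR Pool.Agent.Helper78.BM
open Pool.Agent.Helper35.FP Pool.Agent.Helper55.FP Pool.Agent.Helper78.BI Pool.Agent.Helper55.TZ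
open Pool.Agent.Helper43.TZ (PP Dir Siz Lev thmT)
open Pool.Agent.Helper96.FR (contVec mem_contVec isClosed_contVec)
open Pool.Agent.Helper78.FQ
open Pool.Agent.Helper96.TZ (GF AZ)

section gen

variable {G1 X G : Type} [Group G1] [TopologicalSpace G1] [IsTopologicalGroup G1] [MeasurableSpace X] [MulAction G1 X]
  [MeasurableConstSMul G1 X] [Group G] {μ : Measure X} [SMulInvariantMeasure G1 X μ]
  [IsProbabilityMeasure μ] {b : ℕ → G1}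
  {𝔾 𝕊 : Type} [Group 𝔾] [TopologicalSpace 𝔾] [Group 𝕊] [TopologicalSpace 𝕊] {𝕂 : Subgroup 𝕊} {geo : Geo 𝔾 𝕊 𝕂}
  {R : Reg G} {pd : PD G} [IsTopologicalGroup 𝔾] [IsTopologicalGroup 𝕊] [MeasurableSpace 𝕊] [BorelSpace 𝕊] [SecondCountableTopology 𝕊]
  [LocallyCompactSpace 𝕊] [T2Space 𝕊] (ν : Measure 𝕊) [ν.IsHaarMeasure] [ν.IsMulRightInvariant] [LocallyCompactSpace 𝔾] [T2Space 𝔾]

/-- Ping-pong operators, for one element. -/
theorem hppT {Γ : Subgroup G1} [Countable Γ] {a : Cocy G1 X Γ} {E : Emb Γ G}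
    (hQ : IsClosed (geo.Q : Set 𝔾)) (hKG : IsCompact (𝕂 : Set 𝕊)) (ho : IsOpenMap geo.nb) (F : FrmR geo R pd) (hA : AmnR F)
    (B : BMap μ a E R pd b)
    (h3 : Tendsto (fun g : G1 => μ {x | a.a g x ≠ 1}) (𝓝 1) (𝓝 0)) (hK : Kcont G1 μ) (hE : ErgU μ a E (Ctr b)) (hpl : PLf R pd)
    {F1 : Subgroup G1} {par : G1 → ℝ} {d : ℕ} (D : Dir G1 F1 par d) (hbF : ∀ n, b n ∈ F1)
    (hbp : Tendsto (fun n => par (b n)) (hyperfilter ℕ : Filter ℕ) atTop)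
    (σ : X → G1) (hσ : ∀ B : Set G1, MeasurableSet[borel G1] B → MeasurableSet (σ ⁻¹' B))
    (hσa : ∀ (g : G1) (x : X), g * σ x = σ (g • x) * (a.a g x : G1)) {t : D.S'} {m : ℕ}
    (hpp : ∀ k : ℕ, ∃ (g : Fin k → D.S') (W : Fin k → Set D.Ω), (∀ l, g l ∈ Subgroup.normalClosure {t}) ∧
      (∀ l, MeasurableSet (W l)) ∧ (∀ x, {l | x ∈ W l}.ncard ≤ m) ∧ ∀ x, {l | (g l)⁻¹ • x ∉ W l}.ncard ≤ m)
    (Nn : Subgroup D.S') (hN : Nn.Normal) (htN : t ∈ Nn) (k : ℕ) : ∃ g : Fin k → D.S', (∀ i, g i ∈ Nn) ∧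
      Nonempty (PP (levOf ν (bdDR F B h3 hK hE hpl D hbF) hQ hKG) m k g) := by
  classical
  obtain ⟨g, W, hg, hW, h1, h2⟩ := hpp k
  refine ⟨g, fun i => (Subgroup.normalClosure_le_normal (Set.singleton_subset_iff.2 htN)) (hg i), ?_⟩
  obtain ⟨Y, J, hJV, hJE⟩ := exists_XJ (μ := μ) (jjR E) (dense_jjR E) a
  -- the map to the boundary
  let κ : X → Γ → D.Ω := fun x l => D.κ (σ x * (l : G1))
  have hκ : ∀ l, Measurable fun x => κ x l := by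
    intro l A hA
    have h4 : MeasurableSet[borel G1] ((fun g : G1 => g * (l : G1)) ⁻¹' (D.κ ⁻¹' A)) := by
      have h5 : Measurable[borel G1, borel G1] (fun g : G1 => g * (l : G1)) := (continuous_mul_const (l : G1)).borel_measurable
      exact h5 (D.κm A hA)
    exact hσ _ h4
  have hκS : ∀ (z : D.S') x l, κ (D.ι z • x) (a.a (D.ι z) x * l) = z • κ x l := by
    intro z x l
    change D.κ (σ (D.ι z • x) * ((a.a (D.ι z) x * l : Γ) : G1)) = z • D.κ (σ x * (l : G1))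
    rw [Subgroup.coe_mul, ← mul_assoc, ← hσa, mul_assoc, D.κs]
  have hκq : ∀ u ∈ Ctr b, ∀ x l, κ (u • x) (a.a u x * l) = κ x l := by
    intro u hu x l
    change D.κ (σ (u • x) * ((a.a u x * l : Γ) : G1)) = D.κ (σ x * (l : G1))
    rw [Subgroup.coe_mul, ← mul_assoc, ← hσa, mul_assoc]
    exact D.κq b (hyperfilter ℕ : Filter ℕ) hbF hbp u hu _
  have O : Obs D.S' D.Ω (XL μ (L2 Γ)) ((vrep μ a).comp D.ι)
      (c0X μ a E R b '' CCs μ a E R b) := by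
    refine obsX μ a D.ι κ hκ hκS _ ?_
    rintro _ ⟨c, hc, rfl⟩
    rcases c0X_spec hc with ⟨u, hu, -, h4⟩ | ⟨A, hA, -, h4⟩
    · exact Or.inl ⟨u, hκq u hu, h4⟩
    · exact Or.inr ⟨A, hA, h4⟩
  exact exists_PP ν (bdDR F B h3 hK hE hpl D hbF) hQ hKG ho hA
    ((vrep μ a).comp D.ι) (c0X μ a E R b) J (fun z x y => hJV (D.ι z) x y) (by
      intro c hc x y
      rcases c0X_spec hc with ⟨u, hu, h4, h5⟩ | ⟨A, hA, h4, h5⟩
      · rw [h4, h5, hJV]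
      · rw [h4, h5, map_sub, map_smul, ← hJE A hA]
        rfl) O g W hW m (fun ω => card_le_of_ncard _ (h1 ω)) (fun ω => card_le_of_ncard _ (h2 ω))

end gen

section dir

theorem ker_normal {S1 S2 H : Type} [Group S1] [TopologicalSpace S1] [IsTopologicalGroup S1] [Group S2] [TopologicalSpace S2] [IsTopologicalGroup S2]
    [LocallyCompactSpace S2] [SecondCountableTopology S2] [T2Space S2] [MeasurableSpace S2] [BorelSpace S2]
    {μ : Measure S2} [μ.IsHaarMeasure] [μ.IsMulRightInvariant] [NormedAddCommGroup H] [InnerProductSpace ℂ H] [CompleteSpace H] (L : Lev S1 S2 H μ) :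
    L.ker.Normal := inferInstance

open Pool.Agent.Helper50.FQ Pool.Agent.Helper50.SR Pool.Agent.Helper96.SA

variable {M : ℕ} {G1 : Subgroup (GL (Fin M) ℝ)} {s : Submodule ℝ (Mat M)} {X G : Type} [MeasurableSpace X] [MulAction G1 X]
  [MeasurableConstSMul G1 X] [Group G] {μ : Measure X} [SMulInvariantMeasure G1 X μ]
  [IsProbabilityMeasure μ] {b : ℕ → G1}
  {𝔾 𝕊 : Type} [Group 𝔾] [TopologicalSpace 𝔾] [Group 𝕊] [TopologicalSpace 𝕊] {𝕂 : Subgroup 𝕊} {geo : Geo 𝔾 𝕊 𝕂}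
  {R : Reg G} {pd : PD G} [IsTopologicalGroup 𝔾] [IsTopologicalGroup 𝕊] [MeasurableSpace 𝕊] [BorelSpace 𝕊] [SecondCountableTopology 𝕊]
  [LocallyCompactSpace 𝕊] [T2Space 𝕊] (ν : Measure 𝕊) [ν.IsHaarMeasure] [ν.IsMulRightInvariant] [LocallyCompactSpace 𝔾] [T2Space 𝔾]

/-- **The homomorphism `τ : Cs s → 𝕊`.** -/
theorem exists_tau_dir {Γ : Subgroup G1} [Countable Γ] {a : Cocy G1 X Γ} {E : Emb Γ G}
    (hQ : IsClosed (geo.Q : Set 𝔾)) (hKG : IsCompact (𝕂 : Set 𝕊)) (ho : IsOpenMap geo.nb) (F : FrmR geo R pd) (hA : AmnR F)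
    (B : BMap μ a E R pd b)
    (h3 : Tendsto (fun g : G1 => μ {x | a.a g x ≠ 1}) (𝓝 1) (𝓝 0)) (hK : Kcont G1 μ) (hE : ErgU μ a E (Ctr b)) (hpl : PLf R pd)
    {F1 : Subgroup G1} {par : G1 → ℝ} (D : DirS G1 F1 par s) (hbF : ∀ n, b n ∈ F1)
    (hbp : Tendsto (fun n => par (b n)) (hyperfilter ℕ : Filter ℕ) atTop)
    (σ : X → G1) (hσ : ∀ B : Set G1, MeasurableSet[borel G1] B → MeasurableSet (σ ⁻¹' B))
    (hσa : ∀ (g : G1) (x : X), g * σ x = σ (g • x) * (a.a g x : G1))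
    (z : Siz 𝕊 ν) (hP : Pack z) (hd : z.d = Module.finrank ℝ s) :
    ∃ τ : Cs s →* 𝕊, Continuous τ ∧ (∀ t ∈ NC s, τ t ≠ 1) ∧
      ∃ (Ω : Type) (_ : TopologicalSpace Ω) (_ : CompactSpace Ω) (_ : T2Space Ω)
        (W : GF (levOf ν (bdDR F B h3 hK hE hpl D.toDir hbF) hQ hKG).V (levOf ν (bdDR F B h3 hK hE hpl D.toDir hbF) hQ hKG).W
          (AZ (levOf ν (bdDR F B h3 hK hE hpl D.toDir hbF) hQ hKG) : Set _) Ω) (ω : Ω),
        Cen (levOf ν (bdDR F B h3 hK hE hpl D.toDir hbF) hQ hKG) W ω ∧ (∀ t : Cs s, W.a₁ t ω = W.a₂ (τ t)⁻¹ ω) ∧ ∀ h, W.a₂ h ω = ω → h = 1 := by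
  have hlc : LocallyCompactSpace (Cs s) := (isClosed_Cs s).isClosedEmbedding_subtypeVal.locallyCompactSpace
  have hpp : ∀ t ∈ NC s, ∀ Nn : Subgroup (Cs s), Nn.Normal → t ∈ Nn → ∀ k : ℕ, ∃ g : Fin k → Cs s, (∀ i, g i ∈ Nn) ∧
      Nonempty (PP (levOf ν (bdDR F B h3 hK hE hpl D.toDir hbF) hQ hKG) D.mult k g) := fun t ht Nn hN htN k =>
    hppT ν hQ hKG ho F hA B h3 hK hE hpl D.toDir hbF hbp σ hσ hσa (t := t) (m := D.mult) (D.pp t ht) Nn hN htN k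
  obtain ⟨B1, hB1, hB1n⟩ := exists_compact_mem_nhds (1 : Cs s)
  obtain ⟨τ, hτ, hτk, Ω, i1, i2, i3, W, ω, h1, h2, h4⟩ := exists_tau (levOf ν (bdDR F B h3 hK hE hpl D.toDir hbF) hQ hKG) z hP D.fam
    (by rw [hd, D.famd]) D.mult (fun t ht => hpp t (D.famS ht)) ⟨B1, hB1, hB1n⟩
  refine ⟨τ, hτ, fun t ht ht1 => ?_, Ω, i1, i2, i3, W, ω, h1, h2, h4⟩
  obtain ⟨k₀, hk₀⟩ := thmT (levOf ν (bdDR F B h3 hK hE hpl D.toDir hbF) hQ hKG) z D.mult
  obtain ⟨g, hg, ⟨pp⟩⟩ := hpp t ht (levOf ν (bdDR F B h3 hK hE hpl D.toDir hbF) hQ hKG).ker (ker_normal (S1 := D.toDir.S') _) (hτk t ht1) k₀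
  exact hk₀ k₀ le_rfl g hg pp

end dir

end Pool.Agent.Helper8.EQ
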