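import Pool.Agent.Helper8.EQ.Dir
import Pool.Agent.Helper95.FQ.Tau5
import Pool.Agent.Helper23.EQ.Pack
import Pool.Agent.Helper87.FQ.Lf

/-!
# Project FQ (MP_0f6f3f_an), layer EQ: the homomorphism with its sizes, over a direction; packing in the block group

`exists_tau_dirsz`: the homomorphism `τ : Cs s → 𝕊`, its kernel and the sizes of its values. `packS`: the packing property of the block group `SS`.
-/

set_option autoImplicit false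
set_option linter.unusedSectionVars false

open Filter Topology MeasureTheory Matrix

namespace Pool.Agent.Helper8.EQ

open Pool.Agent.Helper84 Pool.Agent.Helper84.GN Pool.Agent.Helper84.GN.S3 Pool.Agent.Helper84.GN.S3.X
open Pool.Agent.Helper84.NI Pool.Agent.Helper84.GVN Pool.Agent.Helper90.RK Pool.Agent.Helper9
open Pool.Agent.Helper96.RK Pool.Agent.Helper66.FR Pool.Agent.Helper84.FR Pool.Agent.Helper55.FR Pool.Agent.Helper78.BM
open Pool.Agent.Helper35.FP Pool.Agent.Helper55.FP Pool.Agent.Helper78.BI Pool.Agent.Helper55.TZ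
open Pool.Agent.Helper43.TZ (PP Dir Siz Lev thmT)
open Pool.Agent.Helper96.FR (contVec mem_contVec isClosed_contVec)
open Pool.Agent.Helper78.FQ

section dir

open Pool.Agent.Helper50.FQ Pool.Agent.Helper50.SR Pool.Agent.Helper96.SA

variable {M : ℕ} {G1 : Subgroup (GL (Fin M) ℝ)} {s : Submodule ℝ (Mat M)} {X G : Type} [MeasurableSpace X] [MulAction G1 X]
  [MeasurableConstSMul G1 X] [Group G] {μ : Measure X} [SMulInvariantMeasure G1 X μ]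
  [IsProbabilityMeasure μ] {b : ℕ → G1}
  {𝔾 𝕊 : Type} [Group 𝔾] [TopologicalSpace 𝔾] [Group 𝕊] [TopologicalSpace 𝕊] {𝕂 : Subgroup 𝕊} {geo : Geo 𝔾 𝕊 𝕂}
  {R : Reg G} {pd : PD G} [IsTopologicalGroup 𝔾] [IsTopologicalGroup 𝕊] [MeasurableSpace 𝕊] [BorelSpace 𝕊] [SecondCountableTopology 𝕊]
  [LocallyCompactSpace 𝕊] [T2Space 𝕊] (ν : Measure 𝕊) [ν.IsHaarMeasure] [ν.IsMulRightInvariant] [LocallyCompactSpace 𝔾] [T2Space 𝔾]

/-- **The homomorphism `τ : Cs s → 𝕊`, its kernel and its sizes.** -/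
theorem exists_tau_dirsz {Γ : Subgroup G1} [Countable Γ] {a : Cocy G1 X Γ} {E : Emb Γ G}
    (hQ : IsClosed (geo.Q : Set 𝔾)) (hKG : IsCompact (𝕂 : Set 𝕊)) (ho : IsOpenMap geo.nb) (F : FrmR geo R pd) (hA : AmnR F)
    (B : BMap μ a E R pd b)
    (h3 : Tendsto (fun g : G1 => μ {x | a.a g x ≠ 1}) (𝓝 1) (𝓝 0)) (hK : Kcont G1 μ) (hE : ErgU μ a E (Ctr b)) (hpl : PLf R pd)
    {F1 : Subgroup G1} {par : G1 → ℝ} (D : DirS G1 F1 par s) (hbF : ∀ n, b n ∈ F1)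
    (hbp : Tendsto (fun n => par (b n)) (hyperfilter ℕ : Filter ℕ) atTop)
    (σ : X → G1) (hσ : ∀ B : Set G1, MeasurableSet[borel G1] B → MeasurableSet (σ ⁻¹' B))
    (hσa : ∀ (g : G1) (x : X), g * σ x = σ (g • x) * (a.a g x : G1))
    (z : Siz 𝕊 ν) (hP : Pack z) (hd : z.d = Module.finrank ℝ s) :
    ∃ τ : Cs s →* 𝕊, Continuous τ ∧ (∀ t ∈ NC s, τ t ≠ 1) ∧
      ∃ e : ℝ, 0 < e ∧ ∀ (x₀ : XL μ (L2 G)), ‖x₀‖ = 1 → ∀ (ι : Type) (gp : 𝕊 → ι → ℝ),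
        (∀ B : Set 𝕊, IsCompact B → ∃ C : ℝ, ∀ b ∈ B, ∀ b' ∈ B, ∀ y k, |gp (b * y * b') k - gp y k| ≤ C) → ∀ R₁ : ℝ,
        ∃ C : ℝ, ∀ (t : Cs s) (c : ι → ℝ),
          (∀ f : 𝔾 → ℂ, Bf geo f → (∀ g, ‖f g‖ ≤ 1) → (∀ g, (∀ k, |gp (geo.nb (geo.r g))⁻¹ k - c k| ≤ R₁) → f g = 0) →
            ‖(bdDR F B h3 hK hE hpl D.toDir hbF).E f ((bdDR F B h3 hK hE hpl D.toDir hbF).T ((bdDR F B h3 hK hE hpl D.toDir hbF).V t x₀))‖ ≤ e) →
          ∀ k, |gp (τ t) k - c k| ≤ C := by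
  have hlc : LocallyCompactSpace (Cs s) := (isClosed_Cs s).isClosedEmbedding_subtypeVal.locallyCompactSpace
  have hpp : ∀ t ∈ NC s, ∀ Nn : Subgroup (Cs s), Nn.Normal → t ∈ Nn → ∀ k : ℕ, ∃ g : Fin k → Cs s, (∀ i, g i ∈ Nn) ∧
      Nonempty (PP (levOf ν (bdDR F B h3 hK hE hpl D.toDir hbF) hQ hKG) D.mult k g) := fun t ht Nn hN htN k =>
    hppT ν hQ hKG ho F hA B h3 hK hE hpl D.toDir hbF hbp σ hσ hσa (t := t) (m := D.mult) (D.pp t ht) Nn hN htN k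
  obtain ⟨B1, hB1, hB1n⟩ := exists_compact_mem_nhds (1 : Cs s)
  obtain ⟨τ, hτ, hτk, e, he, hsz⟩ := Pool.Agent.Helper95.FQ.exists_tau_size ν (bdDR F B h3 hK hE hpl D.toDir hbF) hQ hKG z hP D.fam
    (by rw [hd, D.famd]) D.mult (fun t ht => hpp t (D.famS ht)) ⟨B1, hB1, hB1n⟩
  refine ⟨τ, hτ, fun t ht ht1 => ?_, e, he, hsz⟩
  obtain ⟨k₀, hk₀⟩ := thmT (levOf ν (bdDR F B h3 hK hE hpl D.toDir hbF) hQ hKG) z D.mult
  obtain ⟨g, hg, ⟨pp⟩⟩ := hpp t ht (levOf ν (bdDR F B h3 hK hE hpl D.toDir hbF) hQ hKG).ker (ker_normal (S1 := D.toDir.S') _) (hτk t ht1) k₀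
  exact hk₀ k₀ le_rfl g hg pp

end dir

section pack

open Pool.Agent.Helper96.SA Pool.Agent.Helper96.TO Pool.Agent.Helper87.FQ Pool.Agent.Helper35.TZ Pool.Agent.Helper2.BC Pool.Agent.Helper84.OB

variable {L : Type} [LieRing L] [LieAlgebra ℝ L] {N : ℕ} {θ : L ≃ₗ⁅ℝ⁆ L} {b : Module.Basis (Fin N) ℝ L} {A : Submodule ℝ L}

/-- The block group has the packing property. -/
theorem packS (h : CartanBasis θ b) (hA : MaxFlat θ A) (H : A) {ν : Measure (SS h hA H)} [ν.IsHaarMeasure] [ν.IsMulRightInvariant]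
    (z : Siz (SS h hA H) ν) (hz : z.ρ = rj (SS h hA H).subtype) : Pack z := by
  refine Pool.Agent.Helper23.EQ.pack (j := (SS h hA H).subtype) (isClosed_SS h hA H).isClosedEmbedding_subtypeVal (fun γ hγ => ?_) z hz
  by_contra hno
  push Not at hno
  apply hγ
  apply Subtype.ext
  apply ac_inj (c := bS h hA H)
  intro x
  have h1 : TT_to (bS h hA H) x ∈ lie (SS h hA H).subtype.range := fun t => by
    refine ⟨ex (t • TT_to (bS h hA H) x), ⟨⟨ex (t • TT_to (bS h hA H) x), ?_⟩, rfl⟩, rfl⟩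
    rw [← map_smul]
    exact ex_mem_SS h hA H (t • x)
  have h2 := (fix_iff_comm (cbS h hA H) (SS_le h hA H γ.2) (H := x)).2 (hno _ h1)
  rw [h2, OneMemClass.coe_one, ac_one]

end pack

end Pool.Agent.Helper8.EQ
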