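import Pool.Agent.Helper8.EQ.Dir
import Pool.Agent.Helper23.EQ.Th
import Pool.Agent.Helper25.EN.All
import Pool.Agent.Helper66.BD.Conn

/-!
# Project FQ (MP_0f6f3f_an), layer EQ: the output

`EQout.of_tau`: the output of the equality case at a node, from the homomorphism `τ : Cs (sH b A (W u)) → SS` and the sizes of the `τ(exp a)`.
-/

set_option autoImplicit false
set_option linter.unusedSectionVars false

namespace Pool.Agent.Helper8.EQ

open Module Pool.Agent.Helper96.SA Pool.Agent.Helper96.TO Pool.Agent.Helper69.SLN Pool.Agent.Helper77.LA Pool.Agent.Helper77.FQ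
  Pool.Agent.Helper68.FQ Pool.Agent.Helper25.AE Pool.Agent.Helper87.FQ Pool.Agent.Helper2.BC Pool.Agent.Helper35.TZ Pool.Agent.Helper95.FQ
  Pool.Agent.Helper50.FQ Pool.Agent.Helper50.SR Pool.Agent.Helper25.EN Pool.Agent.Helper77.TZ2

variable {L : Type} [LieRing L] [LieAlgebra ℝ L] {N : ℕ} {θ : L ≃ₗ⁅ℝ⁆ L} {b : Module.Basis (Fin N) ℝ L} {A : Submodule ℝ L}
  {τ : Module.Dual ℝ A ≃ₗ[ℝ] A} {ι : Type} [Fintype ι] [DecidableEq ι] {al : ι → Module.Dual ℝ A}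
  {L' : Type} [LieRing L'] [LieAlgebra ℝ L'] {N' : ℕ} {θ' : L' ≃ₗ⁅ℝ⁆ L'} {b' : Module.Basis (Fin N') ℝ L'} {A' : Submodule ℝ L'}
  {τ' : Module.Dual ℝ A' ≃ₗ[ℝ] A'} {al' : ι → Module.Dual ℝ A'}

/-- The coroots are in the Levi factor. -/
theorem cor_mem_lsub (h : CartanBasis θ b) (hA : MaxFlat θ A)
    (hτ : ∀ (φ : Module.Dual ℝ A) (a : A), killingForm ℝ L (τ φ : L) (a : L) = φ a) {φ : Module.Dual ℝ A} (hφ : φ ∈ rootsL A) {H : A}
    (h0 : φ H = 0) : (τ φ : L) ∈ lsub A H := by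
  obtain ⟨hφ0, x, hx0, hx⟩ := hφ
  have h1 := lie_theta_self hτ h hA hx
  have h2 := pos h hx0
  have h3 : killingForm ℝ L x (θ x) ≠ 0 := fun h4 => by
    rw [h4] at h2
    norm_num at h2
  have h4 : (τ φ : L) = (killingForm ℝ L x (θ x))⁻¹ • ⁅x, θ x⁆ := by
    rw [h1, smul_smul, inv_mul_cancel₀ h3, one_smul]
  rw [h4]
  have hm := Wv.mem_lsub hx hφ0 h0
  exact (lsub A H).smul_mem _ ((lsub A H).lie_mem hm (theta_lsub hA hm))

/-- Every vector of values of the simple roots `≠ u` is attained in the Levi factor. -/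
theorem exists_dom (s : SD θ b A τ al) {W : ι → A} (hW : ∀ u k, al k (W u) = if k = u then 1 else 0) (u : ι) (c : ι → ℝ) :
    ∃ a : A, (a : L) ∈ lsub A (W u) ∧ ∀ k, k ≠ u → al k a = c k := by
  obtain ⟨r, hr⟩ := exists_val s u c
  refine ⟨_, ?_, hr⟩
  have h1 : ∀ k : {k : ι // k ≠ u}, ((r k • τ (al k) : A) : L) ∈ lsub A (W u) := fun k =>
    (lsub A (W u)).smul_mem _ (cor_mem_lsub s.h s.hA s.hτ (s.hS.root k) (by rw [hW, if_neg k.2]))
  have h2 : ((∑ k, r k • τ (al (k : ι)) : A) : L) = ∑ k, ((r k • τ (al (k : ι)) : A) : L) := by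
    rw [AddSubmonoidClass.coe_finsetSum]
  rw [h2]
  exact (lsub A (W u)).toSubmodule.sum_mem fun k _ => h1 k

theorem TT_mem_sH {H : A} {x : L} (hx : x ∈ lsub A H) : TT_to b x ∈ sH b A H := ⟨x, hx, rfl⟩

/-- **The output of the equality case at a node.** -/
theorem eqout_of (s : SD θ b A τ al) (s' : SD θ' b' A' τ' al') {W : ι → A} {W' : ι → A'} (hW : ∀ u k, al k (W u) = if k = u then 1 else 0)
    {f : ι → ℝ → ℝ} {u : ι} (T : Cs (sH b A (W u)) →* SS s'.h s'.hA (W' u)) (hT : Continuous T) (hker : ∀ t ∈ NC (sH b A (W u)), T t ≠ 1)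
    (hd : finrank ℝ (lsub A (W u)) = finrank ℝ (lsub A' (W' u))) {C : ℝ}
    (hsz : ∀ (a : A) (ha : (a : L) ∈ lsub A (W u)), (∀ k, k ≠ u → 0 ≤ al k a) →
      ∃ (μ : A') (k1 k2 : GL (Fin (finrank ℝ (lsub A' (W' u)))) ℝ), (∀ k, k ≠ u → 0 ≤ al' k μ) ∧ (∀ k, k ≠ u → |al' k μ - f k (al k a)| ≤ C) ∧
        ((T ⟨ex (TT_to b (a : L)), ex_mem_Cs (TT_mem_sH ha)⟩ : SS s'.h s'.hA (W' u)) : GL (Fin (finrank ℝ (lsub A' (W' u)))) ℝ) =
          k1 * res s'.h s'.hA (W' u) (eh b' s'.hA (W' u) μ) * k2 ∧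
        (k1 : Mat (finrank ℝ (lsub A' (W' u)))).transpose * (k1 : Mat (finrank ℝ (lsub A' (W' u)))) = 1 ∧
        (k2 : Mat (finrank ℝ (lsub A' (W' u)))).transpose * (k2 : Mat (finrank ℝ (lsub A' (W' u)))) = 1) : EQout s s' W W' f u := by
  obtain ⟨Th, hTh⟩ := Pool.Agent.Helper23.EQ.exists_Th s.h s.hA (W u) s'.h s'.hA (W' u) (Cs (sH b A (W u))).subtype
    Topology.IsEmbedding.subtypeVal (fun x => ⟨⟨ex (TT_to b (x : L)), ex_mem_Cs (TT_mem_sH x.2)⟩, rfl⟩) T hT (fun x hx => by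
      have hX0 : TT_to b (x : L) ≠ 0 := fun h1 => hx (Subtype.ext (TT_inj_to s.h (by rw [h1]; exact (map_zero _).symm)))
      obtain ⟨δ, hδ, h1⟩ := exists_NC_sH s.h (Pool.Agent.Helper66.BD.isAdj_component b) s.hA (W u) (TT_mem_sH x.2) hX0
      have h2 := h1 (δ / 2) (by positivity) (by rw [abs_of_pos (by positivity)]; linarith)
      refine ⟨δ / 2, _, ?_, hker _ h2⟩
      change ex ((δ / 2) • TT_to b (x : L)) = ex (TT_to b (((δ / 2) • x : lsub A (W u)) : L))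
      rw [← map_smul]
      rfl) hd
  refine ⟨Th, C, fun c hc => ?_⟩
  obtain ⟨a, ha, hac⟩ := exists_dom s hW u c
  obtain ⟨μ, k1, k2, h1, h2, h3, h4, h5⟩ := hsz a ha fun k hk => by
    rw [hac k hk]
    exact hc k hk
  refine ⟨a, μ, _, k1, k2, hac, h1, fun k hk => ?_, h3, h4, h5, fun v => ?_⟩
  · rw [← hac k hk]
    exact h2 k hk
  · exact hTh ⟨ex (TT_to b (a : L)), ex_mem_Cs (TT_mem_sH ha)⟩ (eh b s.hA (W u) a).2 v

end Pool.Agent.Helper8.EQ
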