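import Pool.Agent.Helper8.EQ.DirSz
import Pool.Agent.Helper8.EQ.Out
import Pool.Agent.Helper78.FQ.Fin
import Pool.Agent.Helper55.FQ.Cfg
import Pool.Agent.Helper68.FQ.Reix

/-!
# Project FQ (MP_0f6f3f_an), layer EQ: the equality case at a node

`eq_node`: in the configuration `Cf`, with the boundary map of the node `u`, the size map `f` and the equality of the dimensions of the Levi factors: `EQout`.
-/

set_option autoImplicit false
set_option linter.unusedSectionVars false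

open Filter Topology MeasureTheory Matrix

namespace Pool.Agent.Helper8.EQ

open Pool.Agent.Helper84 Pool.Agent.Helper84.GN Pool.Agent.Helper84.GN.S3 Pool.Agent.Helper84.GN.S3.X
open Pool.Agent.Helper84.NI Pool.Agent.Helper84.GVN Pool.Agent.Helper90.RK Pool.Agent.Helper9
open Pool.Agent.Helper96.RK Pool.Agent.Helper66.FR Pool.Agent.Helper84.FR Pool.Agent.Helper55.FR Pool.Agent.Helper78.BM
open Pool.Agent.Helper35.FP Pool.Agent.Helper55.FP Pool.Agent.Helper78.BI Pool.Agent.Helper55.TZ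
open Pool.Agent.Helper43.TZ (PP Dir Siz Lev opg)
open Pool.Agent.Helper96.SA Pool.Agent.Helper96.TO Pool.Agent.Helper69.SLN Pool.Agent.Helper2.BC
open Pool.Agent.Helper35.TZ (autC isAdj_autC autC_sub lcs_autC)
open Pool.Agent.Helper84.GDL (GD SI)
open Pool.Agent.Helper45.FQ (HC pE ds_pE)
open Pool.Agent.Helper55.OB (Cyc)
open Pool.Agent.Helper43.FQ (Gp)
open Pool.Agent.Helper85.KL (SizeMap)
open Pool.Agent.Helper55.FQ (Gr gG wn Cf)
open Pool.Agent.Helper87.FQ (Mh lsub SS rsS isCompact_KS exists_haarS isOpenMap_rsS)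
open Pool.Agent.Helper50.FQ Pool.Agent.Helper50.SR
open Pool.Agent.Helper78.FQ (Cq frT amnT levT hypT gp_kak gp_shift gp_j isClosed_QT isOpenMap_nbT)
open Pool.Agent.Helper25.EN (EQout)
open Pool.Agent.Helper77.FQ (eaG eaA eaG_coe al_eaA)

section gr

variable {L : Type} [LieRing L] [LieAlgebra ℝ L] {N : ℕ} {r : ℕ} {θ : L ≃ₗ⁅ℝ⁆ L} {b : Module.Basis (Fin N) ℝ L} {A : Submodule ℝ L}
  {τ : Module.Dual ℝ A ≃ₗ[ℝ] A} {al : Fin r → Module.Dual ℝ A} {W : Fin r → A} {D : GD (autC b) (Fin r)}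

theorem eaA_single (W : Fin r → A) (j : Fin r) (t : ℝ) : eaA W (Pi.single j t) = t • W j := by
  rw [eaA, Finset.sum_eq_single j (fun i _ hi => by rw [Pi.single_eq_of_ne hi, zero_smul]) (fun hi => absurd (Finset.mem_univ j) hi), Pi.single_eq_same]

theorem eaA_al (G : Gr θ b A τ al W D) (H : A) : eaA W (fun i => al i H) = H := by
  rw [← sub_eq_zero]
  refine Pool.Agent.Helper77.FQ.eq_zero_of_al G.s.h G.s.hS fun i => ?_
  rw [map_sub, al_eaA G.hW, sub_self]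

theorem ea_coe (G : Gr θ b A τ al W D) (c : Fin r → ℝ) : ((D.ea c : autC b) : GL (Fin N) ℝ) = ex (TT_to b (eaA W c : L)) := by
  rw [G.ea, eaG_coe]

theorem ea_single (G : Gr θ b A τ al W D) (j : Fin r) (t : ℝ) :
    ((D.ea (Pi.single j t) : autC b) : GL (Fin N) ℝ) = ex (t • TT_to b (W j : L)) := by
  rw [ea_coe G, eaA_single, Submodule.coe_smul, map_smul]

/-- The compatibility at the node `j`. -/
theorem cqOf (G : Gr θ b A τ al W D) (j : Fin r) : Cq D j (W j) where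
  orth k := G.K k
  ea t := ea_single G j t

theorem lineOf (G : Gr θ b A τ al W D) (j : Fin r) : ∀ x : A, (∀ φ ∈ rootsL A, φ (W j) = 0 → φ x = 0) → ∃ c : ℝ, x = c • W j :=
  Pool.Agent.Helper87.FQ.line_of_cow G.s.h G.s.hS (by rw [G.hW, if_pos rfl]) fun i hi => by rw [G.hW, if_neg hi]

/-- Compact sets contain finitely many elements. -/
theorem finOf (D : GD (autC b) (Fin r)) {Γ : Subgroup (autC b)} (hf : ∀ R : ℝ, {k : Γ | ∀ i, D.mu (k : autC b) i ≤ R}.Finite) (B : Set (autC b))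
    (hB : IsCompact B) : (Γ.subtype ⁻¹' B).Finite := by
  obtain ⟨C, hC0, hC⟩ := D.mu_shift (hB.union (isCompact_singleton (x := (1 : autC b))))
  refine (hf (C + ∑ i, |D.mu 1 i|)).subset fun k hk i => ?_
  have h1 := hC (k : autC b) (Or.inl hk) 1 (Or.inr rfl) 1 i
  rw [mul_one, mul_one] at h1
  have h2 := (abs_le.1 h1).2
  have h3 : |D.mu 1 i| ≤ ∑ i, |D.mu 1 i| := Finset.single_le_sum (f := fun i => |D.mu 1 i|) (fun _ _ => abs_nonneg _) (Finset.mem_univ i)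
  linarith [le_abs_self (D.mu 1 i)]

end gr

section node

variable {L L' : Type} [LieRing L] [LieAlgebra ℝ L] [LieRing L'] [LieAlgebra ℝ L'] {N N' : ℕ} {r : ℕ}
  {θ : L ≃ₗ⁅ℝ⁆ L} {θ' : L' ≃ₗ⁅ℝ⁆ L'} {b : Module.Basis (Fin N) ℝ L} {b' : Module.Basis (Fin N') ℝ L'}
  {A : Submodule ℝ L} {A' : Submodule ℝ L'} {τ : Module.Dual ℝ A ≃ₗ[ℝ] A} {τ' : Module.Dual ℝ A' ≃ₗ[ℝ] A'}
  {al : Fin r → Module.Dual ℝ A} {al' : Fin r → Module.Dual ℝ A'} {W : Fin r → A} {W' : Fin r → A'}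
  {D : GD (autC b) (Fin r)} {D' : GD (autC b') (Fin r)} [MeasurableSpace (autC b)] [BorelSpace (autC b)]
  {Γ : Subgroup (autC b)} {Λ : Subgroup (autC b')} [Countable Γ] [Countable Λ]
  {X : Type} [MeasurableSpace X] [MulAction (autC b) X] [MeasurableConstSMul (autC b) X] {μ : Measure X}
  [SMulInvariantMeasure (autC b) X μ] [IsProbabilityMeasure μ] {a : Cocy (autC b) X Γ} {E : Emb Γ Λ}

/-- **The equality case at the node `u`.** -/
theorem eq_node (C : Cf θ θ' A A' τ τ' al al' W W' D D' μ a E) (e : Fin r ≃ Fin r) {f : Fin r → ℝ → ℝ}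
    (hf : SizeMap (pE E) (gG D Γ) (fun k i => gG D' Λ k (e i)) f) (u : Fin r)
    (B : BMap μ a E ((Pool.Agent.Helper55.FQ.gp D' Λ C.hf').reg (Finset.univ.erase (e u))) (D'.pd (e u) Λ) (wn D u))
    (hd : Module.finrank ℝ (lsub A (W u)) = Module.finrank ℝ (lsub A' (W' (e u)))) :
    EQout C.G.s (Pool.Agent.Helper68.FQ.SD.reindex C.G'.s e) W (fun k => W' (e k)) f u := by
  classical
  have hsimple := C.simple
  have hsimple' := C.simple'
  have s := C.G.s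
  have s' := C.G'.s
  obtain ⟨j, hj⟩ : ∃ j, j = e u := ⟨_, rfl⟩
  obtain ⟨hm, σ, hc, -⟩ := C.hc
  -- the source
  obtain ⟨i1, i2, i3⟩ := lcs_autC b
  have hWu : W u ≠ 0 := fun h0 => by
    have h1 := C.G.hW u u
    rw [h0, map_zero, if_pos rfl] at h1
    exact zero_ne_one h1
  have hroot : ∃ φ ∈ rootsL A, φ (W u) = 0 := by
    have hN : Nontrivial (Fin r) := Fin.nontrivial_iff_two_le.2 C.h2
    obtain ⟨k, hk⟩ := exists_ne u
    exact ⟨al k, s.hS.root k, by rw [C.G.hW, if_neg hk]⟩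
  obtain ⟨⟨Dr⟩, -⟩ := src_levi s.h (isAdj_autC b) (autC_sub s.h) s.hA hWu hroot
  have hbF : ∀ n, wn D u n ∈ opg (autC b) (TT_to b (W u : L)) := fun n => ⟨n, ea_single C.G u n⟩
  have hTW : TT_to b (W u : L) ≠ 0 := fun h0 => hWu (Subtype.ext (TT_inj_to s.h (by rw [h0]; exact (map_zero _).symm)))
  have hTs : (TT_to b (W u : L))ᵀ = TT_to b (W u : L) := (TT_symm_iff_to s.h _).2 (s.hA.neg _ (W u).2)
  have hbp : Tendsto (fun n => pr (autC b) (TT_to b (W u : L)) (wn D u n)) (hyperfilter ℕ : Filter ℕ) atTop := by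
    have h1 : (fun n => pr (autC b) (TT_to b (W u : L)) (wn D u n)) = fun n : ℕ => (n : ℝ) :=
      funext fun n => pr_ex hTs hTW (ea_single C.G u n)
    rw [h1]
    exact tendsto_natCast_atTop_atTop.mono_left Nat.hyperfilter_le_atTop
  have hE : ErgU μ a E (Pool.Agent.Helper78.BM.Ctr (wn D u)) := ergU_dir Dr.toDir C.cyc.hinv C.cyc.h3 C.cyc.hK hbF hbp
  have hσ : ∀ B : Set (autC b), MeasurableSet[borel (autC b)] B → MeasurableSet (σ ⁻¹' B) := fun B hB => hc.ms (by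
    rw [BorelSpace.measurable_eq (α := autC b)]
    exact hB)
  -- the target
  have cq : Cq D' (e u) (W' (e u)) := cqOf C.G' (e u)
  have hH := lineOf C.G' (e u)
  have hW1 : ∀ n, ∃ C₁ : ℝ, ∀ γ ∈ ((Pool.Agent.Helper55.FQ.gp D' Λ C.hf').reg (Finset.univ.erase (e u))).W n, ∀ i, i ≠ e u →
      D'.mu (Λ.subtype γ) i ≤ C₁ := fun n => ⟨n, fun γ hγ i hi => hγ i (Finset.mem_erase.2 ⟨hi, Finset.mem_univ _⟩)⟩
  have hF1 : ∀ n, Tendsto (fun γ => D'.mu (Λ.subtype γ) (e u)) (((Pool.Agent.Helper55.FQ.gp D' Λ C.hf').reg (Finset.univ.erase (e u))).F n) atTop :=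
    fun n => (Pool.Agent.Helper55.FQ.gp D' Λ C.hf').tendsto_gap _ n (Finset.notMem_erase _ _)
  have hir := finOf D' C.hf'
  obtain ⟨ν, i4, i5, z, hz, hzρ⟩ := exists_haarS s'.h s'.hA (W' (e u))
  obtain ⟨T, hTc, hTk, ε, hε, hsz⟩ := exists_tau_dirsz ν (isClosed_QT s'.h s'.hA) (isCompact_KS s'.h s'.hA (W' (e u))) (isOpenMap_nbT s'.h s'.hA)
    (frT s'.h s'.hA cq Λ.subtype hW1 hF1) (amnT s'.h s'.hA cq Λ.subtype hW1 hF1 hir hH) B C.cyc.h3 C.cyc.hK hE
    (D'.plf_of (e u) Λ.subtype _ hF1) Dr hbF hbp σ hσ hc.coc z (packS s'.h s'.hA _ z hzρ) (by rw [hz, ← hd, finrank_sH s.h])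
  -- the constants
  obtain ⟨C₁, hC₁⟩ := Pool.Agent.Helper85.FQ.mass_lev D hc hf (ε := B.p * ε ^ 2) (mul_pos B.pos (pow_pos hε 2))
  obtain ⟨C₂, hC₂0, hC₂⟩ := hypT s'.h s'.hA cq Λ.subtype hW1 hF1 B C.cyc.h3 C.cyc.hK hE Dr.toDir hbF hH
  obtain ⟨C₃, hC₃⟩ := hsz (cst μ (dl 1)) (by rw [LinearIsometry.norm_map, norm_dl]) (Fin r) (Pool.Agent.Helper78.FQ.gp s'.h s'.hA cq) (fun B hB => by
    obtain ⟨K, -, hK⟩ := gp_shift s'.h s'.hA cq hH hB
    exact ⟨K, fun b hb b' hb' y k => hK b hb b' hb' y k⟩) (|C₁| + C₂)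
  refine eqout_of s (Pool.Agent.Helper68.FQ.SD.reindex s' e) (fun u k => C.G.hW k u) T hTc hTk hd (C := C₃) fun x hx hx0 => ?_
  obtain ⟨t, ht⟩ : ∃ t : Cs (sH b A (W u)), t = ⟨ex (TT_to b (x : L)), ex_mem_Cs (TT_mem_sH hx)⟩ := ⟨_, rfl⟩
  obtain ⟨v, hv⟩ : ∃ v : Fin r → ℝ, v = fun i => if i = e u then 0 else f (e.symm i) (al (e.symm i) x) := ⟨_, rfl⟩
  have hvu : v (e u) = 0 := by rw [hv]; exact if_pos rfl
  have hvk : ∀ k, k ≠ u → v (e k) = f k (al k x) := fun k hk => by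
    have h1 : e k ≠ e u := fun h => hk (e.injective h)
    rw [hv]
    change (if e k = e u then 0 else f (e.symm (e k)) (al (e.symm (e k)) x)) = _
    rw [if_neg h1, e.symm_apply_apply]
  -- the image of `t` in the source group
  have hι : Dr.toDir.ι t = D.ea fun i => al i x := by
    apply Subtype.ext
    rw [ea_coe C.G, eaA_al C.G, ht]
    rfl
  have hmass : ∀ᶠ n in (hyperfilter ℕ : Filter ℕ), Pool.Agent.Helper9.FQ.mass μ a E {γ | ∃ i, i ≠ e u ∧ |C₁| < |D'.mu (Λ.subtype γ) i - v i|}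
      (wn D u n * Dr.toDir.ι t) ≤ B.p * ε ^ 2 := by
    have h1 := hC₁ u (D.ea fun i => al i x) (fun i => al i x) (by
      filter_upwards [eventually_ge_atTop (-al u x)] with T hT
      rw [← D.ea_add, add_comm, D.mu_ea]
      intro i
      rw [Pi.add_apply]
      by_cases hi : i = u
      · rw [hi, Pi.single_eq_same]
        linarith
      · rw [Pi.single_eq_of_ne hi, add_zero]
        exact hx0 i hi)
    have h2 := (tendsto_natCast_atTop_atTop (R := ℝ)).mono_left Nat.hyperfilter_le_atTop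
    filter_upwards [h2.eventually h1] with n hn
    rw [hι]
    refine (Pool.Agent.Helper9.FQ.mass_mono ?_ _).trans hn
    rintro γ ⟨i, hi, hiγ⟩
    have hi' : e.symm i ≠ u := fun h => hi (by rw [← h, e.apply_symm_apply])
    refine ⟨e.symm i, hi', lt_of_le_of_lt (le_abs_self _) ?_⟩
    rw [← hvk _ hi', e.apply_symm_apply]
    exact hiγ
  have hgap := hC₃ t v fun φ _ hφ1 hφ0 => by
    have h1 := hC₂ v |C₁| (B.p * ε ^ 2) t hmass φ hφ1 fun g hg => hφ0 g fun k => by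
      by_cases hk : k = e u
      · rw [hk, gp_j, hvu, sub_zero, abs_zero]
        positivity
      · exact hg k hk
    have h2 := h1.trans_eq (inv_mul_cancel_left₀ B.pos.ne' (ε ^ 2))
    exact abs_le_of_sq_le_sq' h2 hε.le |>.2
  obtain ⟨k1, hk1, k2, hk2, hkk⟩ := gp_kak s'.h s'.hA cq (T t)
  refine ⟨eaA W' (Pool.Agent.Helper78.FQ.gp s'.h s'.hA cq (T t)), k1, k2, fun k hk => ?_, fun k hk => ?_, ?_, ?_, ?_⟩
  · rw [al_eaA C.G'.hW]
    exact Pool.Agent.Helper78.FQ.gp_nonneg s'.h s'.hA cq _ _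
  · rw [al_eaA C.G'.hW, ← hvk k hk]
    exact hgap (e k)
  · rw [← ht]
    have h1 := congrArg (Subtype.val : SS s'.h s'.hA (W' (e u)) → _) hkk
    refine h1.trans ?_
    rw [Subgroup.coe_mul, Subgroup.coe_mul, Pool.Agent.Helper87.FQ.rsS_coe]
    congr 3
    apply Subtype.ext
    exact ea_coe C.G' _
  · exact Pool.Agent.Helper87.FQ.ti_eq_self.1 (Pool.Agent.Helper87.FQ.mem_KS s'.h s'.hA _ |>.1 hk1)
  · exact Pool.Agent.Helper87.FQ.ti_eq_self.1 (Pool.Agent.Helper87.FQ.mem_KS s'.h s'.hA _ |>.1 hk2)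

end node

end Pool.Agent.Helper8.EQ
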