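import Pool.Agent.Helper96.TZ.DimL

/-!
# Project FQ (MP_0f6f3f_an), layer EQ: one orbit

`Cen L G ω`: the orbit of `ω` under `S2` carries the spectral measures of all the vectors, uniformly on compact sets. `exists_cen`: there is such a point. `Cen.zero`: a function which vanishes on the orbit is zero.
`Cen.move`: the points `s ω`, `s` in a compact set, are of the form `h ω` with `h` in a compact set. `Cen.low`: the spectral measures charge the open sets of the orbit.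
-/

set_option autoImplicit false
set_option linter.unusedSectionVars false

open MeasureTheory Filter Topology
open scoped ENNReal Pointwise

namespace Pool.Agent.Helper8.EQ

open Pool.Agent.Helper43.TZ Pool.Agent.Helper96.TZ

variable {S1 S2 H : Type} [Group S1] [TopologicalSpace S1] [IsTopologicalGroup S1] [Group S2] [TopologicalSpace S2] [IsTopologicalGroup S2]
  [LocallyCompactSpace S2] [SecondCountableTopology S2] [T2Space S2] [MeasurableSpace S2] [BorelSpace S2]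
  {μ : Measure S2} [μ.IsHaarMeasure] [NormedAddCommGroup H] [InnerProductSpace ℂ H] [CompleteSpace H]
  {A : Set (H →L[ℂ] H)} {Ω : Type} [TopologicalSpace Ω] [CompactSpace Ω] [T2Space Ω]

/-- The orbit of `ω` carries the spectral measures. -/
def Cen (L : Lev S1 S2 H μ) (G : GF L.V L.W A Ω) (ω : Ω) : Prop :=
  ∀ K : Set H, IsCompact K → (∀ v ∈ K, ‖v‖ ≤ 1) → ∀ ε : ℝ, 0 < ε → ∃ B : Set S2, IsCompact B ∧
    ∀ v ∈ K, ∀ (f : C(Ω, ℝ)) (c : ℝ), 0 ≤ f → 0 ≤ c → (∀ h ∈ B, f (G.a₂ h ω) ≤ c) → G.fn v f ≤ c + ε * ‖f‖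

theorem norm_le_one {f : C(Ω, ℝ)} (f0 : 0 ≤ f) (f1 : f ≤ 1) : ‖f‖ ≤ 1 := by
  rw [ContinuousMap.norm_le f zero_le_one]
  intro ω
  rw [Real.norm_of_nonneg (show 0 ≤ f ω from f0 ω)]
  exact f1 ω

theorem st_fin (L : Lev S1 S2 H μ) (G : GF L.V L.W A Ω) (hA : ∀ a ∈ A, a ∈ L.Z) {x : H →L[ℂ] H} (hxJ : x ∈ L.J) (hx : L.I2 x)
    (hx0 : x ≠ 0) (N : Finset H) (hN : ∀ y ∈ N, ‖y‖ ≤ 1) {ε : ℝ} (hε : 0 < ε) :
    ∃ B : Set S2, IsCompact B ∧ ∃ ω₀ : Ω, ∀ y ∈ N, ∀ (f : C(Ω, ℝ)) (c : ℝ), 0 ≤ f → 0 ≤ c → (∀ h ∈ B, f (G.a₂ h ω₀) ≤ c) →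
      G.fn y f ≤ c + ε * ‖f‖ := by
  obtain ⟨B, hB, ω₀, h⟩ := exists_st L G hA hxJ hx hx0 (fun i : Fin N.toList.length => N.toList.get i)
    (fun i => hN _ (Finset.mem_toList.1 (List.get_mem _ i))) hε
  refine ⟨B, hB, ω₀, fun y hy => ?_⟩
  obtain ⟨i, hi⟩ := List.get_of_mem (Finset.mem_toList.2 hy)
  rw [← hi]
  exact h i

theorem exists_cen (L : Lev S1 S2 H μ) (G : GF L.V L.W A Ω) (hA : ∀ a ∈ A, a ∈ L.Z) {x : H →L[ℂ] H} (hxJ : x ∈ L.J) (hx : L.I2 x)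
    (hx0 : x ≠ 0) : ∃ ω : Ω, Cen L G ω := by
  classical
  obtain ⟨ζ, hζ⟩ : ∃ ζ : H, ‖ζ‖ = 1 := by
    obtain ⟨w, hw⟩ : ∃ w, x w ≠ 0 := by
      by_contra h
      push Not at h
      exact hx0 (ContinuousLinearMap.ext h)
    have hw0 : w ≠ 0 := by
      rintro rfl
      exact hw (map_zero x)
    exact ⟨((‖w‖ : ℂ))⁻¹ • w, by
      rw [norm_smul, norm_inv, Complex.norm_real, norm_norm, inv_mul_cancel₀ (norm_ne_zero_iff.2 hw0)]⟩
  obtain ⟨B₀, hB₀, ω, h0⟩ := st_fin L G hA hxJ hx hx0 {ζ} (fun y hy => by rw [Finset.mem_singleton.1 hy, hζ])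
    (show (0 : ℝ) < 1 / 4 by norm_num)
  refine ⟨ω, fun K hK hK1 ε hε => ?_⟩
  -- a finite net
  obtain ⟨t, ht1, ht2, ht3⟩ := hK.finite_cover_balls (show (0 : ℝ) < ε / 4 by positivity)
  obtain ⟨B₁, hB₁, ω₁, h1⟩ := st_fin L G hA hxJ hx hx0 (insert ζ ht2.toFinset) (fun y hy => by
    rcases Finset.mem_insert.1 hy with h | h
    · rw [h, hζ]
    · exact hK1 _ (ht1 (ht2.mem_toFinset.1 h))) (show (0 : ℝ) < min (ε / 2) (1 / 4) by positivity)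
  -- the two orbits meet
  have hK1c : IsCompact ((fun h => G.a₂ h ω) '' B₀) := hB₀.image (G.cont₂.comp (Continuous.prodMk continuous_id continuous_const))
  have hK2c : IsCompact ((fun h => G.a₂ h ω₁) '' B₁) := hB₁.image (G.cont₂.comp (Continuous.prodMk continuous_id continuous_const))
  obtain ⟨ω', ⟨h, hh, hω⟩, h', hh', hω'⟩ := meet (G.fn ζ) (by rw [GF.fn_apply, G.one_apply, ips', hζ, one_pow])
    hK1c.isClosed hK2c.isClosed
    (fun f f0 f1 hf => by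
      have k1 := h0 ζ (Finset.mem_singleton_self _) f 0 f0 le_rfl fun h hh => (hf _ ⟨h, hh, rfl⟩).le
      have k2 := norm_le_one f0 f1
      linarith)
    (fun f f0 f1 hf => by
      have k1 := h1 ζ (Finset.mem_insert_self _ _) f 0 f0 le_rfl fun h hh => (hf _ ⟨h, hh, rfl⟩).le
      have k2 := norm_le_one f0 f1
      have k3 : min (ε / 2) (1 / 4) ≤ (1 / 4 : ℝ) := min_le_right _ _
      have k4 : min (ε / 2) (1 / 4) * ‖f‖ ≤ 1 / 4 * 1 := by gcongr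
      linarith)
  change G.a₂ h ω = ω' at hω
  change G.a₂ h' ω₁ = ω' at hω'
  have hω₁ : ω₁ = G.a₂ (h'⁻¹ * h) ω := by
    rw [G.mul₂, hω, ← hω', ← G.mul₂, inv_mul_cancel, G.one₂]
  refine ⟨(fun b => b * (h'⁻¹ * h)) '' B₁, hB₁.image (continuous_mul_const _), fun v hv f c f0 c0 hf => ?_⟩
  obtain ⟨y, hy, hy2⟩ := Set.mem_iUnion₂.1 (ht3 hv)
  rw [Metric.mem_ball, dist_eq_norm] at hy2
  have k1 := h1 y (Finset.mem_insert_of_mem (ht2.mem_toFinset.2 hy)) f c f0 c0 fun b hb => by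
    rw [hω₁, ← G.mul₂]
    exact hf _ ⟨b, hb, rfl⟩
  have k2 := G.inner_close f v y (hK1 v hv) (hK1 y (ht1 hy))
  rw [GF.fn_apply] at k1 ⊢
  have k3 : min (ε / 2) (1 / 4) * ‖f‖ ≤ ε / 2 * ‖f‖ := mul_le_mul_of_nonneg_right (min_le_left _ _) (norm_nonneg _)
  have k4 : 2 * ‖f‖ * ‖v - y‖ ≤ 2 * ‖f‖ * (ε / 4) := by gcongr
  linarith

namespace Cen

variable {L : Lev S1 S2 H μ} {G : GF L.V L.W A Ω} {ω : Ω}

/-- A function which vanishes on the orbit is zero. -/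
theorem zero (hω : Cen L G ω) {f : C(Ω, ℝ)} (hf : ∀ h, f (G.a₂ h ω) = 0) : G.θ f = 0 := by
  have key : ∀ v : H, ‖v‖ ≤ 1 → G.θ f v = 0 := by
    intro v hv
    have h1 : G.fn v (f * f) ≤ 0 := by
      refine le_of_forall_pos_le_add fun ε hε => ?_
      obtain ⟨B, -, hB⟩ := hω {v} isCompact_singleton (fun w hw => by rw [Set.mem_singleton_iff.1 hw]; exact hv)
        (ε / (‖f * f‖ + 1)) (by positivity)
      have h2 := hB v rfl (f * f) 0 (fun ω => mul_self_nonneg (f ω)) le_rfl fun h _ => by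
        rw [ContinuousMap.mul_apply, hf, mul_zero]
      refine h2.trans ?_
      have h3 : ε / (‖f * f‖ + 1) * ‖f * f‖ ≤ ε := by
        rw [div_mul_eq_mul_div, div_le_iff₀ (by positivity)]
        nlinarith [norm_nonneg (f * f)]
      linarith
    rw [GF.fn_apply, G.inner_mul_self] at h1
    have h2 : ‖G.θ f v‖ ^ 2 = 0 := le_antisymm h1 (sq_nonneg _)
    exact norm_eq_zero.1 (pow_eq_zero_iff (two_ne_zero) |>.1 h2)
  refine ContinuousLinearMap.ext fun w => ?_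
  by_cases hw : w = 0
  · rw [hw, map_zero, map_zero]
  have h3 := key (((‖w‖ : ℂ))⁻¹ • w) (by
    rw [norm_smul, norm_inv, Complex.norm_real, norm_norm, inv_mul_cancel₀ (norm_ne_zero_iff.2 hw)])
  rw [map_smul] at h3
  exact (smul_eq_zero.1 h3).resolve_left (inv_ne_zero (by exact_mod_cast norm_ne_zero_iff.2 hw))

/-- The points `s ω`. -/
theorem move (hω : Cen L G ω) (hH : ∃ ζ : H, ‖ζ‖ = 1) {B₁ : Set S1} (hB₁ : IsCompact B₁) :
    ∃ B : Set S2, IsCompact B ∧ ∀ s ∈ B₁, ∃ h ∈ B, G.a₁ s ω = G.a₂ h ω := by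
  obtain ⟨ζ, hζ⟩ := hH
  have hcV : Continuous fun s => (L.V s).symm ζ := by
    simp_rw [V_symm]
    exact (L.Vc ζ).comp continuous_inv
  obtain ⟨B, hB, h⟩ := hω (insert ζ ((fun s => (L.V s).symm ζ) '' B₁)) ((hB₁.image hcV).insert ζ) (by
    rintro v (rfl | ⟨s, -, rfl⟩)
    · exact hζ.le
    · change ‖(L.V s).symm ζ‖ ≤ 1
      rw [LinearIsometryEquiv.norm_map, hζ]) (1 / 4) (by norm_num)
  refine ⟨B⁻¹ * B, hB.inv.mul hB, exists_move L G hB ω hζ (fun s hs f f0 f1 hf => ?_) fun f f0 f1 hf => ?_⟩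
  · have k1 := h _ (Set.mem_insert_of_mem _ ⟨s, hs, rfl⟩) f 0 f0 le_rfl fun h hh => (hf h hh).le
    have k2 := norm_le_one f0 f1
    change G.fn ((L.V s).symm ζ) f ≤ 0 + 1 / 4 * ‖f‖ at k1
    linarith
  · have k1 := h _ (Set.mem_insert _ _) f 0 f0 le_rfl fun h hh => (hf h hh).le
    have k2 := norm_le_one f0 f1
    linarith

/-- **The lower bound.** -/
theorem low (hω : Cen L G ω) (hH : ∃ ζ : H, ‖ζ‖ = 1) {U : Set S2} (hU : U ∈ 𝓝 (1 : S2)) (x₀ : S2) {ι : Type} {l : Filter ι} [l.NeBot]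
    {f : ι → C(Ω, ℝ)} {c : ℝ} (hc : 0 < c) (f0 : ∀ i, 0 ≤ f i) (hf : ∀ᶠ i in l, ∀ u ∈ U, c ≤ f i (G.a₂ (u * x₀) ω))
    (h0 : ∀ v, Tendsto (fun i => G.θ (f i) v) l (𝓝 0)) : False := by
  obtain ⟨ζ, hζ⟩ := hH
  obtain ⟨B, hB, h⟩ := hω {ζ} isCompact_singleton (fun w hw => by rw [Set.mem_singleton_iff.1 hw, hζ]) (1 / 4) (by norm_num)
  -- a neighbourhood `U'` with `h U' h⁻¹ ⊆ U` for `h ∈ x₀ B⁻¹`
  have hU' : {u : S2 | ∀ b ∈ B, x₀ * b⁻¹ * u * (x₀ * b⁻¹)⁻¹ ∈ U} ∈ 𝓝 (1 : S2) := by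
    refine hB.eventually_forall_of_forall_eventually (x₀ := (1 : S2)) (P := fun u b => x₀ * b⁻¹ * u * (x₀ * b⁻¹)⁻¹ ∈ U) fun b hb => ?_
    have k1 : Continuous fun p : S2 × S2 => x₀ * p.2⁻¹ * p.1 * (x₀ * p.2⁻¹)⁻¹ := by fun_prop
    refine k1.continuousAt.eventually_mem ?_
    change U ∈ 𝓝 (x₀ * b⁻¹ * 1 * (x₀ * b⁻¹)⁻¹)
    rwa [mul_one, mul_inv_cancel]
  obtain ⟨t, ht2⟩ := hB.elim_nhds_subcover' (fun b _ => (fun u => u * b⁻¹) ⁻¹' {u : S2 | ∀ b ∈ B, x₀ * b⁻¹ * u * (x₀ * b⁻¹)⁻¹ ∈ U})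
    fun b hb => by
      have k1 : Continuous fun u : S2 => u * b⁻¹ := continuous_mul_const _
      refine k1.continuousAt.preimage_mem_nhds ?_
      rw [mul_inv_cancel]
      exact hU'
  -- the functions
  set g : ι → C(Ω, ℝ) := fun i => ∑ b ∈ t, tr L G (x₀ * (b : S2)⁻¹) (f i) with hg
  have ga : ∀ i ω', g i ω' = ∑ b ∈ t, tr L G (x₀ * (b : S2)⁻¹) (f i) ω' := fun i ω' => by
    rw [hg, ContinuousMap.coe_sum, Finset.sum_apply]
  have g0 : ∀ i, 0 ≤ g i := fun i ω' => by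
    change 0 ≤ g i ω'
    rw [ga]
    exact Finset.sum_nonneg fun b _ => f0 i _
  have hgc : ∀ᶠ i in l, ∀ b ∈ B, c ≤ g i (G.a₂ b ω) := by
    filter_upwards [hf] with i hi b hb
    obtain ⟨b', hb', hbb⟩ := Set.mem_iUnion₂.1 (ht2 hb)
    have k1 : x₀ * (b' : S2)⁻¹ * (b * (b' : S2)⁻¹) * (x₀ * (b' : S2)⁻¹)⁻¹ ∈ U := hbb _ b'.2
    have k2 := hi _ k1
    have k3 : x₀ * (b' : S2)⁻¹ * (b * (b' : S2)⁻¹) * (x₀ * (b' : S2)⁻¹)⁻¹ * x₀ = x₀ * (b' : S2)⁻¹ * b := by group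
    rw [k3] at k2
    rw [ga]
    refine le_trans ?_ (Finset.single_le_sum (f := fun b'' : {x // x ∈ B} => tr L G (x₀ * (b'' : S2)⁻¹) (f i) (G.a₂ b ω)) (fun b'' _ => f0 i _) hb')
    rw [tr_apply, ← G.mul₂]
    exact k2
  have hgt : Tendsto (fun i => G.fn ζ (g i)) l (𝓝 0) := by
    have k0 : ∀ i, G.fn ζ (g i) = ∑ b ∈ t, G.fn ζ (tr L G (x₀ * (b : S2)⁻¹) (f i)) := fun i => by rw [hg, map_sum]
    simp_rw [k0]
    rw [← Finset.sum_const_zero (s := t)]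
    refine tendsto_finsetSum _ fun b _ => ?_
    have k1 : ∀ i, G.fn ζ (tr L G (x₀ * (b : S2)⁻¹) (f i)) =
        (inner ℂ (G.θ (f i) ((L.W (x₀ * (b : S2)⁻¹)⁻¹).symm ζ)) ((L.W (x₀ * (b : S2)⁻¹)⁻¹).symm ζ) : ℂ).re := by
      intro i
      have k2 := cj_θ L G (x₀ * (b : S2)⁻¹)⁻¹ (f i)
      rw [inv_inv] at k2
      rw [GF.fn_apply, ← k2, cj_apply]
      congr 1
      conv_lhs => rw [← (L.W (x₀ * (b : S2)⁻¹)⁻¹).apply_symm_apply ζ]
      rw [LinearIsometryEquiv.symm_apply_apply, LinearIsometryEquiv.inner_map_map]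
    simp_rw [k1]
    have k3 : Tendsto (fun i => (inner ℂ (G.θ (f i) ((L.W (x₀ * (b : S2)⁻¹)⁻¹).symm ζ)) ((L.W (x₀ * (b : S2)⁻¹)⁻¹).symm ζ) : ℂ)) l (𝓝 0) := by
      have k4 := (h0 ((L.W (x₀ * (b : S2)⁻¹)⁻¹).symm ζ)).inner (𝕜 := ℂ) (tendsto_const_nhds (x := (L.W (x₀ * (b : S2)⁻¹)⁻¹).symm ζ))
      rwa [inner_zero_left] at k4
    have k5 := (Complex.continuous_re.tendsto 0).comp k3
    rwa [Complex.zero_re] at k5
  obtain ⟨i, hi1, hi2⟩ := (hgc.and (hgt.eventually (Iio_mem_nhds (show (0 : ℝ) < c / 2 by positivity)))).exists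
  -- the positive part of `c - g`
  set e : C(Ω, ℝ) := ⟨fun ω' => max (c - g i ω') 0, by fun_prop⟩ with he
  have e0 : 0 ≤ e := fun ω' => le_max_right _ _
  have en : ‖e‖ ≤ c := by
    rw [ContinuousMap.norm_le e hc.le]
    intro ω'
    rw [Real.norm_of_nonneg (show 0 ≤ e ω' from e0 ω')]
    exact max_le (by linarith [show (0 : ℝ) ≤ g i ω' from g0 i ω']) hc.le
  have k1 := h ζ rfl e 0 e0 le_rfl fun b hb => by
    change max (c - g i (G.a₂ b ω)) 0 ≤ 0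
    exact max_le (by linarith [hi1 b hb]) le_rfl
  have k2 : c • (1 : C(Ω, ℝ)) ≤ g i + e := fun ω' => by
    change c * 1 ≤ g i ω' + max (c - g i ω') 0
    linarith [le_max_left (c - g i ω') 0]
  have k3 := G.mono k2 ζ
  rw [G.re_smul, ← GF.fn_apply, ← GF.fn_apply, map_add] at k3
  have k4 : G.fn ζ 1 = 1 := by rw [GF.fn_apply, G.one_apply, ips', hζ, one_pow]
  rw [k4] at k3
  have k5 : G.fn ζ (g i) < c / 2 := hi2
  linarith

end Cen

end Pool.Agent.Helper8.EQ
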