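import Pool.Agent.Helper8.EQ.Two

/-!
# Project FQ (MP_0f6f3f_an), layer EQ: the homomorphism `τ`

`exists_tau`: in the equality case there is a continuous homomorphism `τ : S1 → S2` and a point `ω` with trivial stabiliser, `s ω = τ(s)⁻¹ ω`.
-/

set_option autoImplicit false
set_option linter.unusedSectionVars false

open MeasureTheory Filter Topology
open scoped ENNReal Pointwise

namespace Pool.Agent.Helper8.EQ

open Pool.Agent.Helper43.TZ Pool.Agent.Helper96.TZ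

variable {S1 S2 H : Type} [Group S1] [TopologicalSpace S1] [IsTopologicalGroup S1] [Group S2] [TopologicalSpace S2] [IsTopologicalGroup S2]
  [LocallyCompactSpace S2] [SecondCountableTopology S2] [T2Space S2] [MeasurableSpace S2] [BorelSpace S2]
  {μ : Measure S2} [μ.IsHaarMeasure] [NormedAddCommGroup H] [InnerProductSpace ℂ H] [CompleteSpace H]
  {A : Set (H →L[ℂ] H)} {Ω : Type} [TopologicalSpace Ω] [CompactSpace Ω] [T2Space Ω]

/-- The graph is closed. -/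
theorem Cen.lim {L : Lev S1 S2 H μ} {G : GF L.V L.W A Ω} {ω : Ω} (hω : Cen L G ω) (hH : ∃ ζ : H, ‖ζ‖ = 1) {ι : Type} {l : Filter ι} [l.NeBot]
    {s : ι → S1} {h : ι → S2} {s₀ : S1} {h₀ g₀ : S2} (hs : Tendsto s l (𝓝 s₀)) (hh : Tendsto h l (𝓝 h₀))
    (he : ∀ i, G.a₁ (s i) ω = G.a₂ (h i) ω) (he₀ : G.a₁ s₀ ω = G.a₂ g₀ ω) : G.a₂ h₀ ω = G.a₂ g₀ ω := by
  by_contra hne
  obtain ⟨f, hf1, hf2⟩ : ∃ f : C(Ω, ℝ), f (G.a₂ h₀ ω) = 0 ∧ f (G.a₂ g₀ ω) = 1 := by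
    obtain ⟨f, k1, k2, -⟩ := exists_continuous_zero_one_of_isClosed (isClosed_singleton (x := G.a₂ h₀ ω)) (isClosed_singleton (x := G.a₂ g₀ ω))
      (Set.disjoint_singleton.2 hne)
    exact ⟨f, k1 rfl, k2 rfl⟩
  -- the functions
  set F : ι → C(Ω, ℝ) := fun i => (tr1 L G (s i) f - tr1 L G s₀ f) * (tr1 L G (s i) f - tr1 L G s₀ f) with hF
  have hFa : ∀ i x, F i (G.a₂ x ω) = (f (G.a₂ (x * h i) ω) - f (G.a₂ (x * g₀) ω)) ^ 2 := by
    intro i x
    change (f (G.a₁ (s i) (G.a₂ x ω)) - f (G.a₁ s₀ (G.a₂ x ω))) * (f (G.a₁ (s i) (G.a₂ x ω)) - f (G.a₁ s₀ (G.a₂ x ω))) = _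
    rw [G.comm, G.comm, he, he₀, ← G.mul₂, ← G.mul₂, sq]
  -- the neighbourhood
  have hc : Continuous fun p : S2 × S2 => (f (G.a₂ (p.1 * p.2) ω) - f (G.a₂ (p.1 * g₀) ω)) ^ 2 := by
    refine Continuous.pow (Continuous.sub
      (f.continuous.comp (G.cont₂.comp (Continuous.prodMk (continuous_fst.mul continuous_snd) continuous_const)))
      (f.continuous.comp (G.cont₂.comp (Continuous.prodMk (continuous_fst.mul continuous_const) continuous_const)))) 2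
  have h1 : ∀ᶠ p : S2 × S2 in 𝓝 (1, h₀), (1 / 2 : ℝ) < (f (G.a₂ (p.1 * p.2) ω) - f (G.a₂ (p.1 * g₀) ω)) ^ 2 := by
    refine continuousAt_const.eventually_lt hc.continuousAt ?_
    change (1 / 2 : ℝ) < (f (G.a₂ (1 * h₀) ω) - f (G.a₂ (1 * g₀) ω)) ^ 2
    rw [one_mul, one_mul, hf1, hf2]
    norm_num
  rw [nhds_prod_eq] at h1
  obtain ⟨U, hU, V, hV, hUV⟩ := Filter.mem_prod_iff.1 h1
  refine hω.low hH hU 1 (l := l) (f := F) (c := 1 / 2) (by norm_num) (fun i ω' => mul_self_nonneg _) ?_ fun v => ?_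
  · filter_upwards [hh.eventually hV] with i hi u hu
    rw [mul_one, hFa]
    exact le_of_lt (hUV (Set.mk_mem_prod hu hi))
  · -- strong convergence
    have k1 : ∀ w, Tendsto (fun i => G.θ (tr1 L G (s i) f - tr1 L G s₀ f) w) l (𝓝 0) := by
      intro w
      have k2 := ((continuous_cjV L (G.θ f) w).tendsto s₀).comp hs
      have k3 := k2.sub (tendsto_const_nhds (x := cj (L.V s₀).symm (G.θ f) w))
      rw [sub_self] at k3
      refine k3.congr fun i => ?_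
      rw [G.sub, θ_tr1, θ_tr1]
      rfl
    have k4 : ∀ i, G.θ (F i) v = G.θ (tr1 L G (s i) f - tr1 L G s₀ f) (G.θ (tr1 L G (s i) f - tr1 L G s₀ f) v) := fun i => by
      rw [hF, G.mul]
      rfl
    simp_rw [k4]
    -- bounded operators
    have k5 : ∀ i w, ‖G.θ (tr1 L G (s i) f - tr1 L G s₀ f) w‖ ≤ 2 * ‖f‖ * ‖w‖ := by
      intro i w
      refine (G.norm_le _ _).trans (mul_le_mul_of_nonneg_right ?_ (norm_nonneg _))
      rw [ContinuousMap.norm_le _ (by positivity)]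
      intro ω'
      change ‖f (G.a₁ (s i) ω') - f (G.a₁ s₀ ω')‖ ≤ 2 * ‖f‖
      refine (norm_sub_le _ _).trans ?_
      have k1 := f.norm_coe_le_norm (G.a₁ (s i) ω')
      have k2 := f.norm_coe_le_norm (G.a₁ s₀ ω')
      linarith
    refine squeeze_zero_norm (a := fun i => 2 * ‖f‖ * ‖G.θ (tr1 L G (s i) f - tr1 L G s₀ f) v‖) (fun i => k5 i _) ?_
    have k6 := ((k1 v).norm).const_mul (2 * ‖f‖)
    rwa [norm_zero, mul_zero] at k6

/-- **The homomorphism `τ`.** -/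
theorem exists_tau (L : Lev S1 S2 H μ) [μ.IsMulRightInvariant] (z : Siz S2 μ) (hP : Pack z) (F : Fam S1) (hd : z.d = F.d1) (m : ℕ)
    (hpp : ∀ t ∈ F.Sg, ∀ N : Subgroup S1, N.Normal → t ∈ N → ∀ k : ℕ, ∃ s : Fin k → S1, (∀ i, s i ∈ N) ∧ Nonempty (PP L m k s))
    (hloc : ∃ B : Set S1, IsCompact B ∧ B ∈ 𝓝 (1 : S1)) :
    ∃ τ : S1 →* S2, Continuous τ ∧ (∀ s, τ s = 1 → s ∈ L.ker) ∧
      ∃ (Ω : Type) (_ : TopologicalSpace Ω) (_ : CompactSpace Ω) (_ : T2Space Ω) (G : GF L.V L.W (AZ L : Set (H →L[ℂ] H)) Ω) (ω : Ω),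
        Cen L G ω ∧ (∀ s, G.a₁ s ω = G.a₂ (τ s)⁻¹ ω) ∧ ∀ h, G.a₂ h ω = ω → h = 1 := by
  classical
  obtain ⟨x, ⟨hxJ, -, hx⟩, hx0⟩ := exists_x L z
  have hH : ∃ ζ : H, ‖ζ‖ = 1 := by
    obtain ⟨w, hw⟩ : ∃ w, x w ≠ 0 := by
      by_contra h
      push Not at h
      exact hx0 (ContinuousLinearMap.ext h)
    have hw0 : w ≠ 0 := by
      rintro rfl
      exact hw (map_zero x)
    exact ⟨((‖w‖ : ℂ))⁻¹ • w, by
      rw [norm_smul, norm_inv, Complex.norm_real, norm_norm, inv_mul_cancel₀ (norm_ne_zero_iff.2 hw0)]⟩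
  have hcomm : ∀ a ∈ L.Z, ∀ b ∈ L.Z, a * b = b * a := fun a ha b hb =>
    ContinuousLinearMap.ext fun ξ => mem_Z_comm L ha hb.1 ξ
  obtain ⟨Ω, i1, i2, i3, ⟨G⟩⟩ := exists_gf L.V L.W L.VW (AZ L) (isClosed_AZ L) (fun a ha b hb => hcomm a ha.1 b hb.1)
    (fun a ha s => AZ_cjV L ha s) (fun a ha h => AZ_cjW L ha h) (fun a ha => ha.2)
  have hA : ∀ a ∈ (AZ L : Set (H →L[ℂ] H)), a ∈ L.Z := fun a ha => ha.1
  obtain ⟨ω, hω⟩ := exists_cen L G hA hxJ hx hx0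
  -- no element of the shell acts trivially
  have htr : ∀ t ∈ F.Sg, t ∉ L.ker := by
    intro t ht htk
    obtain ⟨k₀, hk₀⟩ := thmT L z m
    obtain ⟨s, hs, ⟨pp⟩⟩ := hpp t ht L.ker inferInstance htk k₀
    exact hk₀ k₀ le_rfl s hs pp
  have hst : ∀ h, G.a₂ h ω = ω → h = 1 := by
    intro h hh
    have k1 := stab_bot L z hP F hd htr G hω hH
    have k2 : h ∈ stab G ω := hh
    rw [k1] at k2
    exact k2
  have hinj : ∀ g h, G.a₂ g ω = G.a₂ h ω → g = h := by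
    intro g h e
    have k1 : G.a₂ (h⁻¹ * g) ω = ω := by rw [G.mul₂, e, ← G.mul₂, inv_mul_cancel, G.one₂]
    have k2 := hst _ k1
    rw [inv_mul_eq_one] at k2
    exact k2.symm
  have hmv : ∀ s, ∃ h, G.a₁ s ω = G.a₂ h ω := by
    intro s
    obtain ⟨B, -, hB⟩ := hω.move hH (isCompact_singleton (x := s))
    obtain ⟨h, -, hh⟩ := hB s rfl
    exact ⟨h, hh⟩
  choose h hh using hmv
  let τ : S1 →* S2 :=
    { toFun := fun s => (h s)⁻¹
      map_one' := by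
        rw [inv_eq_one]
        exact hst _ (by rw [← hh, G.one₁])
      map_mul' := fun s t => by
        rw [← mul_inv_rev]
        congr 1
        exact hinj _ _ (by rw [← hh, G.mul₁, hh t, G.comm, hh s, ← G.mul₂]) }
  have hτ : ∀ s, G.a₁ s ω = G.a₂ (τ s)⁻¹ ω := fun s => by
    change _ = G.a₂ ((h s)⁻¹)⁻¹ ω
    rw [inv_inv, hh]
  refine ⟨τ, ?_, fun s hs => ?_, Ω, i1, i2, i3, G, ω, hω, hτ, hst⟩
  · -- continuity at `1`
    obtain ⟨B₁, hB₁, hB₁n⟩ := hloc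
    obtain ⟨B, hB, hBm⟩ := hω.move hH hB₁
    refine continuous_of_continuousAt_one τ ?_
    change Tendsto τ (𝓝 1) (𝓝 (τ 1))
    rw [map_one, tendsto_iff_ultrafilter]
    intro l hl
    have k1 : ∀ᶠ s in (l : Filter S1), h s ∈ B := by
      have k2 : ∀ᶠ s in (l : Filter S1), s ∈ B₁ := hl hB₁n
      filter_upwards [k2] with s hs
      obtain ⟨g, hg, hgs⟩ := hBm s hs
      have k3 : h s = g := hinj _ _ (by rw [← hh, hgs])
      rw [k3]
      exact hg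
    obtain ⟨h₀, -, hh₀⟩ := hB.ultrafilter_le_nhds' (l.map h) (by exact k1)
    have hh₀' : Tendsto h (l : Filter S1) (𝓝 h₀) := hh₀
    have k2 := hω.lim hH (l := (l : Filter S1)) (s := id) (h := h) (s₀ := 1) (h₀ := h₀) (g₀ := 1) hl hh₀' hh (by rw [G.one₁, G.one₂])
    rw [G.one₂] at k2
    have k3 := hst _ k2
    rw [k3] at hh₀'
    have k4 := hh₀'.inv
    rwa [inv_one] at k4
  · -- the kernel
    have k1 : ∀ f : C(Ω, ℝ), cj (L.V s).symm (G.θ f) = G.θ f := by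
      intro f
      rw [← θ_tr1]
      have k2 := hω.zero (f := tr1 L G s f - f) fun x => by
        change f (G.a₁ s (G.a₂ x ω)) - f (G.a₂ x ω) = 0
        rw [G.comm, hτ, hs, inv_one, G.one₂, sub_self]
      rw [G.sub] at k2
      exact sub_eq_zero.1 k2
    exact triv_of_theta L z G s k1

end Pool.Agent.Helper8.EQ
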