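import Pool.Agent.Helper8.EQ.One
import Pool.Agent.Helper43.TZ.Main

/-!
# Project FQ (MP_0f6f3f_an), layer EQ: the stabiliser is trivial

`stab G ω`: the stabiliser of `ω` in `S2`; `nor G ω`: the elements which map `ω` to a point `s ω`. `Pack z`: a closed subgroup `D ≠ 1` normalised by `N` lowers the dimension of `N / D`. `stab_bot`: in the equality case the
stabiliser is trivial.
-/

set_option autoImplicit false
set_option linter.unusedSectionVars false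

open MeasureTheory Filter Topology
open scoped ENNReal Pointwise

namespace Pool.Agent.Helper8.EQ

open Pool.Agent.Helper43.TZ Pool.Agent.Helper96.TZ

section Pig

variable {S₁ S₂ Ω : Type} [Group S₁] [Group S₂] [TopologicalSpace S₂] [MeasurableSpace S₂] {μ : Measure S₂}

/-- Packing: a closed subgroup `D ≠ 1` normalised by `N` lowers the dimension of `N / D`. -/
def Pack (z : Siz S₂ μ) : Prop :=
  ∀ D N : Subgroup S₂, IsClosed (D : Set S₂) → D ≠ ⊥ → (∀ n ∈ N, ∀ d ∈ D, n * d * n⁻¹ ∈ D) → ∀ B : Set S₂, IsCompact B →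
    ∃ C : ℝ, ∀ δ : ℝ, 0 < δ → δ ≤ 1 → ∀ (n : ℕ) (g : Fin n → S₂), (∀ i, g i ∈ N ∧ g i ∈ B) →
      (∀ i j, i ≠ j → ∀ d ∈ D, δ < z.ρ (g i * d * (g j)⁻¹)) → n * δ ^ z.d ≤ C * δ

/-- Pigeonhole and powers, modulo the stabiliser. -/
theorem pigeon2 (a₁ : S₁ → Ω → Ω) (a₂ : S₂ → Ω → Ω) (one₁ : ∀ ω, a₁ 1 ω = ω) (mul₁ : ∀ s t ω, a₁ (s * t) ω = a₁ s (a₁ t ω))
    (one₂ : ∀ ω, a₂ 1 ω = ω) (mul₂ : ∀ s t ω, a₂ (s * t) ω = a₂ s (a₂ t ω)) (comm : ∀ s h ω, a₁ s (a₂ h ω) = a₂ h (a₁ s ω))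
    (z : Siz S₂ μ) {B₁ Sh : Set S₁} {d₁ : ℕ} (hd : z.d = d₁) {c C : ℝ} (hc : 0 < c)
    (hfam : ∀ η : ℝ, 0 < η → η ≤ 1 → ∃ (N : ℕ) (s : Fin N → S₁), c ≤ N * η ^ d₁ ∧ (∀ i, s i ∈ B₁) ∧
      ∀ i j, i ≠ j → ∃ a : ℕ, a * η ≤ C ∧ ((s j)⁻¹ * s i) ^ a ∈ Sh)
    (ω₀ : Ω) {B : Set S₂} (h1 : ∀ s ∈ B₁, ∃ g ∈ B, a₁ s ω₀ = a₂ g ω₀)
    {D N : Subgroup S₂} (hD : ∀ d ∈ D, a₂ d ω₀ = ω₀) (hN : ∀ g s, a₁ s ω₀ = a₂ g ω₀ → g ∈ N) {C₁ : ℝ}
    (hpk : ∀ δ : ℝ, 0 < δ → δ ≤ 1 → ∀ (n : ℕ) (g : Fin n → S₂), (∀ i, g i ∈ N ∧ g i ∈ B) →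
      (∀ i j, i ≠ j → ∀ d ∈ D, δ < z.ρ (g i * d * (g j)⁻¹)) → n * δ ^ z.d ≤ C₁ * δ)
    {U : Set S₂} (hU : U ∈ 𝓝 (1 : S₂)) : ∃ t ∈ Sh, ∃ g ∈ U, a₁ t ω₀ = a₂ g ω₀ := by
  obtain ⟨r, hr, hrU⟩ := z.basis U hU
  set E : ℝ := |C| with hE
  have hlim : ∃ ρ : ℝ, 0 < ρ ∧ ρ ≤ 1 / 2 ∧ |C₁| * ρ < c ∧ Real.exp (E * ρ) < 1 + r := by
    have h2 : Tendsto (fun ρ : ℝ => Real.exp (E * ρ)) (𝓝[>] 0) (𝓝 1) := by
      have h3 : ContinuousAt (fun ρ : ℝ => Real.exp (E * ρ)) 0 := by fun_prop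
      have h4 := h3.tendsto
      simp only [mul_zero, Real.exp_zero] at h4
      exact h4.mono_left nhdsWithin_le_nhds
    have h3 : Tendsto (fun ρ : ℝ => |C₁| * ρ) (𝓝[>] 0) (𝓝 0) := by
      have h3 : ContinuousAt (fun ρ : ℝ => |C₁| * ρ) 0 := by fun_prop
      have h4 := h3.tendsto
      simp only [mul_zero] at h4
      exact h4.mono_left nhdsWithin_le_nhds
    have h4 : ∀ᶠ ρ : ℝ in 𝓝[>] 0, Real.exp (E * ρ) < 1 + r := h2.eventually (Iio_mem_nhds (by linarith))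
    have h5 : ∀ᶠ ρ : ℝ in 𝓝[>] 0, |C₁| * ρ < c := h3.eventually (Iio_mem_nhds hc)
    have h6 : ∀ᶠ ρ : ℝ in 𝓝[>] 0, 0 < ρ := self_mem_nhdsWithin
    have h7 : ∀ᶠ ρ : ℝ in 𝓝[>] 0, ρ ≤ 1 / 2 := nhdsWithin_le_nhds (Iic_mem_nhds (by norm_num))
    obtain ⟨ρ, k1, k2, k3, k4⟩ := (h4.and (h5.and (h6.and h7))).exists
    exact ⟨ρ, k3, k4, k2, k1⟩
  obtain ⟨ρ, hρ0, hρ1, hρ2, hρ3⟩ := hlim
  set η : ℝ := ρ ^ d₁ with hη
  set δ : ℝ := ρ ^ (d₁ + 1) with hδ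
  have hη0 : 0 < η := by positivity
  have hη1 : η ≤ 1 := pow_le_one₀ hρ0.le (by linarith)
  have hδ0 : 0 < δ := by positivity
  have hδη : δ = η * ρ := by rw [hδ, hη, ← pow_succ]
  have hδ1 : δ ≤ 1 / 2 := by
    rw [hδη]
    nlinarith
  obtain ⟨n, s, hn, hs, hpow⟩ := hfam η hη0 hη1
  choose g hgB hg using fun i => h1 (s i) (hs i)
  -- two of them are close
  obtain ⟨i, j, hij, d, hdD, hw⟩ : ∃ i j, i ≠ j ∧ ∃ d ∈ D, z.ρ (g i * d * (g j)⁻¹) ≤ δ := by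
    by_contra hcon
    push Not at hcon
    have h2 := hpk δ hδ0 (by linarith) n g (fun i => ⟨hN _ _ (hg i), hgB i⟩) hcon
    rw [hd, hδη, mul_pow] at h2
    have h3 : c * ρ ^ d₁ ≤ |C₁| * (η * ρ) := by
      calc c * ρ ^ d₁ ≤ n * η ^ d₁ * ρ ^ d₁ := by gcongr
        _ = n * (η ^ d₁ * ρ ^ d₁) := by ring
        _ ≤ C₁ * (η * ρ) := h2
        _ ≤ |C₁| * (η * ρ) := mul_le_mul_of_nonneg_right (le_abs_self _) (by positivity)
    have h4 : c * ρ ^ d₁ ≤ (|C₁| * ρ) * ρ ^ d₁ := h3.trans (le_of_eq (by rw [hη]; ring))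
    have h5 := le_of_mul_le_mul_right h4 (by positivity)
    linarith
  obtain ⟨a, ha, hsh⟩ := hpow i j hij
  set w := g i * d * (g j)⁻¹ with hw'
  have h2 : a₁ (s j)⁻¹ ω₀ = a₂ (g j)⁻¹ ω₀ := by
    have h3 : a₁ (s j)⁻¹ (a₁ (s j) ω₀) = a₁ (s j)⁻¹ (a₂ (g j) ω₀) := by rw [hg]
    rw [← mul₁, inv_mul_cancel, one₁, comm] at h3
    conv_rhs => rw [h3]
    rw [← mul₂, inv_mul_cancel, one₂]
  have h3 : a₁ ((s j)⁻¹ * s i) ω₀ = a₂ w ω₀ := by
    rw [hw', mul₂, mul₂, ← h2, ← comm, hD d hdD, ← comm, ← hg, ← mul₁]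
  have h4 : ∀ b : ℕ, a₁ (((s j)⁻¹ * s i) ^ b) ω₀ = a₂ (w ^ b) ω₀ := by
    intro b
    induction b with
    | zero => rw [pow_zero, pow_zero, one₁, one₂]
    | succ b ih => rw [pow_succ, mul₁, h3, comm, ih, ← mul₂, ← pow_succ']
  refine ⟨_, hsh, w ^ a, hrU _ ?_, h4 a⟩
  have h5 := siz_pow z w a
  have h6 : (a : ℝ) * z.ρ w ≤ E * ρ := by
    have ha' : (0 : ℝ) ≤ a := Nat.cast_nonneg a
    calc (a : ℝ) * z.ρ w ≤ a * δ := by gcongr
      _ = (a * η) * ρ := by rw [hδη]; ring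
      _ ≤ |C| * ρ := by
        gcongr
        exact ha.trans (le_abs_self C)
      _ = E * ρ := by rw [hE]
  have h7 : Real.exp (a * z.ρ w) ≤ Real.exp (E * ρ) := Real.exp_le_exp.2 h6
  linarith

end Pig

variable {S1 S2 H : Type} [Group S1] [TopologicalSpace S1] [IsTopologicalGroup S1] [Group S2] [TopologicalSpace S2] [IsTopologicalGroup S2]
  [LocallyCompactSpace S2] [SecondCountableTopology S2] [T2Space S2] [MeasurableSpace S2] [BorelSpace S2]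
  {μ : Measure S2} [μ.IsHaarMeasure] [NormedAddCommGroup H] [InnerProductSpace ℂ H] [CompleteSpace H]

section St

variable {A : Set (H →L[ℂ] H)} {Ω : Type} [TopologicalSpace Ω]

/-- The stabiliser. -/
def stab {L : Lev S1 S2 H μ} (G : GF L.V L.W A Ω) (ω : Ω) : Subgroup S2 where
  carrier := {h | G.a₂ h ω = ω}
  mul_mem' := by
    intro g h hg hh
    change G.a₂ (g * h) ω = ω
    rw [G.mul₂, show G.a₂ h ω = ω from hh, show G.a₂ g ω = ω from hg]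
  one_mem' := G.one₂ ω
  inv_mem' := by
    intro g hg
    change G.a₂ g⁻¹ ω = ω
    conv_lhs => rw [← show G.a₂ g ω = ω from hg]
    rw [← G.mul₂, inv_mul_cancel, G.one₂]

theorem mem_stab {L : Lev S1 S2 H μ} {G : GF L.V L.W A Ω} {ω : Ω} {h : S2} : h ∈ stab G ω ↔ G.a₂ h ω = ω := Iff.rfl

theorem inv_move {L : Lev S1 S2 H μ} (G : GF L.V L.W A Ω) {ω : Ω} {s : S1} {g : S2} (h : G.a₁ s ω = G.a₂ g ω) :
    G.a₁ s⁻¹ ω = G.a₂ g⁻¹ ω := by
  have h3 : G.a₁ s⁻¹ (G.a₁ s ω) = G.a₁ s⁻¹ (G.a₂ g ω) := by rw [h]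
  rw [← G.mul₁, inv_mul_cancel, G.one₁, G.comm] at h3
  conv_rhs => rw [h3]
  rw [← G.mul₂, inv_mul_cancel, G.one₂]

/-- The elements which map `ω` to a point `s ω`. -/
def nor {L : Lev S1 S2 H μ} (G : GF L.V L.W A Ω) (ω : Ω) : Subgroup S2 where
  carrier := {h | ∃ s, G.a₁ s ω = G.a₂ h ω}
  mul_mem' := by
    rintro g h ⟨s, hs⟩ ⟨t, ht⟩
    exact ⟨t * s, by rw [G.mul₁, hs, G.comm, ht, G.mul₂]⟩
  one_mem' := ⟨1, by rw [G.one₁, G.one₂]⟩
  inv_mem' := by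
    rintro g ⟨s, hs⟩
    exact ⟨s⁻¹, inv_move G hs⟩

theorem nor_stab {L : Lev S1 S2 H μ} (G : GF L.V L.W A Ω) (ω : Ω) (n : S2) (hn : n ∈ nor G ω) (d : S2) (hd : d ∈ stab G ω) :
    n * d * n⁻¹ ∈ stab G ω := by
  obtain ⟨s, hs⟩ := hn
  rw [mem_stab] at hd ⊢
  rw [G.mul₂, G.mul₂, ← inv_move G hs, ← G.comm, hd, ← G.comm, ← hs, ← G.mul₁, inv_mul_cancel, G.one₁]

theorem isClosed_stab [T2Space Ω] {L : Lev S1 S2 H μ} (G : GF L.V L.W A Ω) (ω : Ω) : IsClosed (stab G ω : Set S2) :=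
  isClosed_eq (G.cont₂.comp (Continuous.prodMk continuous_id continuous_const)) continuous_const

end St

/-- An element of `S1` which acts trivially on the norm continuous part of the centre acts trivially on the centre. -/
theorem triv_of_theta (L : Lev S1 S2 H μ) [μ.IsMulRightInvariant] (z : Siz S2 μ) {Ω : Type} [TopologicalSpace Ω]
    (G : GF L.V L.W (AZ L : Set (H →L[ℂ] H)) Ω) (t : S1) (h1 : ∀ f : C(Ω, ℝ), cj (L.V t).symm (G.θ f) = G.θ f) :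
    ∀ a ∈ L.Z, cj (L.V t) a = a := by
  -- `V t` commutes with the range of `θ`
  set c : H →L[ℂ] H := ((L.V t).toContinuousLinearEquiv : H →L[ℂ] H) with hc
  have hcomm_of : ∀ a : H →L[ℂ] H, cj (L.V t).symm a = a → a * c = c * a := by
    intro a ha
    refine ContinuousLinearMap.ext fun x => ?_
    change a (L.V t x) = L.V t (a x)
    have h2 : (L.V t).symm (a (L.V t x)) = a x := congrArg (fun T : H →L[ℂ] H => T x) ha
    rw [← h2, LinearIsometryEquiv.apply_symm_apply]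
  have hθ : ∀ f, G.θ f * c = c * G.θ f := fun f => hcomm_of _ (h1 f)
  have hAZ : ∀ a ∈ AZ L, a * c = c * a := by
    intro a ha
    have k1 : ∀ b ∈ AZ L, star b = b → b * c = c * b := by
      intro b hb hs
      obtain ⟨f, hf⟩ := G.surj b hb (fun x y => by
        rw [ContinuousLinearMap.star_eq_adjoint] at hs
        conv_lhs => rw [← hs]
        rw [ContinuousLinearMap.adjoint_inner_left])
      rw [← hf]
      exact hθ f
    have hsa : star a ∈ AZ L := star_mem ha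
    have k2 := k1 (a + star a) ((AZ L).add_mem ha hsa) (by rw [star_add, star_star, add_comm])
    have k3 := k1 (Complex.I • (a - star a)) ((AZ L).smul_mem ((AZ L).sub_mem ha hsa) _) (by
      rw [star_smul, star_sub, star_star, Complex.star_def, Complex.conj_I, neg_smul, ← smul_neg, neg_sub])
    have k4 : (a - star a) * c = c * (a - star a) := by
      rw [smul_mul_assoc, mul_smul_comm] at k3
      exact smul_right_injective _ Complex.I_ne_zero k3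
    have k5 : (2 : ℂ) • (a * c) = (2 : ℂ) • (c * a) := by
      have e1 : (2 : ℂ) • (a * c) = (a + star a) * c + (a - star a) * c := by
        rw [two_smul, add_mul, sub_mul]; abel
      have e2 : (2 : ℂ) • (c * a) = c * (a + star a) + c * (a - star a) := by
        rw [two_smul, mul_add, mul_sub]; abel
      rw [e1, e2, k2, k4]
    exact smul_right_injective _ (two_ne_zero : (2 : ℂ) ≠ 0) k5
  have hZ := comm_of_lipZ L z c fun a ha hl => hAZ a ⟨ha, hl.cont⟩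
  intro a ha
  refine ContinuousLinearMap.ext fun x => ?_
  have h2 : a (L.V t ((L.V t).symm x)) = L.V t (a ((L.V t).symm x)) := congrArg (fun T : H →L[ℂ] H => T ((L.V t).symm x)) (hZ a ha)
  rw [cj_apply, ← h2, LinearIsometryEquiv.apply_symm_apply]

/-- An element of the shell which acts trivially. -/
theorem triv_of_approx (L : Lev S1 S2 H μ) [μ.IsMulRightInvariant] (z : Siz S2 μ) (F : Fam S1) {Ω : Type} [TopologicalSpace Ω]
    (G : GF L.V L.W (AZ L : Set (H →L[ℂ] H)) Ω)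
    (happ : ∀ (m n : ℕ) (v : Fin n → H) (_ : ∀ i, ‖v i‖ ≤ 1) (f : Fin m → C(Ω, ℝ)) (ε : ℝ) (_ : 0 < ε),
      ∃ t ∈ F.Sg, ∀ i j, ‖cj (L.V t).symm (G.θ (f j)) (v i) - G.θ (f j) (v i)‖ ≤ ε) :
    ∃ t ∈ F.Sg, ∀ a ∈ L.Z, cj (L.V t) a = a := by
  classical
  -- compactness
  set T : ({w : H // ‖w‖ ≤ 1} × C(Ω, ℝ) × ℕ) → Set S1 := fun p =>
    {t | ‖cj (L.V t).symm (G.θ p.2.1) p.1 - G.θ p.2.1 p.1‖ ≤ 1 / (p.2.2 + 1)} with hT
  obtain ⟨t, ht, ht2⟩ := F.hSg.inter_iInter_nonempty T (fun p =>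
      isClosed_le (((continuous_cjV L _ _).sub continuous_const).norm) continuous_const) (by
    intro u
    set l := u.toList with hl
    have hlu : ∀ p ∈ u, ∃ i : Fin l.length, l.get i = p := fun p hp => List.get_of_mem (Finset.mem_toList.2 hp)
    obtain ⟨N, hN⟩ : ∃ N : ℕ, ∀ p ∈ u, p.2.2 ≤ N := ⟨u.sup fun p => p.2.2, fun p hp => Finset.le_sup (f := fun p => p.2.2) hp⟩
    obtain ⟨t, ht, ht2⟩ := happ _ _ (fun i : Fin l.length => ((l.get i).1 : H)) (fun i => (l.get i).1.2)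
      (fun i : Fin l.length => (l.get i).2.1) (1 / (N + 1)) (by positivity)
    refine ⟨t, ht, Set.mem_iInter₂.2 fun p hp => ?_⟩
    obtain ⟨i, hi⟩ := hlu p hp
    have h1 := ht2 i i
    rw [hi] at h1
    refine h1.trans ?_
    have h2 : (p.2.2 : ℝ) ≤ N := by exact_mod_cast hN p hp
    exact one_div_le_one_div_of_le (by positivity) (by linarith))
  rw [Set.mem_iInter] at ht2
  refine ⟨t, ht, ?_⟩
  have h1 : ∀ f : C(Ω, ℝ), cj (L.V t).symm (G.θ f) = G.θ f := by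
    intro f
    have h2 : ∀ w : H, ‖w‖ ≤ 1 → cj (L.V t).symm (G.θ f) w = G.θ f w := by
      intro w hw
      have h3 : ‖cj (L.V t).symm (G.θ f) w - G.θ f w‖ ≤ 0 := by
        exact ge_of_tendsto' tendsto_one_div_add_atTop_nhds_zero_nat fun n => ht2 (⟨w, hw⟩, f, n)
      exact sub_eq_zero.1 (norm_le_zero_iff.1 h3)
    refine ContinuousLinearMap.ext fun w => ?_
    by_cases hw : w = 0
    · rw [hw, map_zero, map_zero]
    have h3 := h2 (((‖w‖ : ℂ))⁻¹ • w) (by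
      rw [norm_smul, norm_inv, Complex.norm_real, norm_norm, inv_mul_cancel₀ (norm_ne_zero_iff.2 hw)])
    rw [map_smul, map_smul] at h3
    have h4 : ((‖w‖ : ℂ))⁻¹ ≠ 0 := inv_ne_zero (by exact_mod_cast norm_ne_zero_iff.2 hw)
    exact smul_right_injective H h4 h3
  exact triv_of_theta L z G t h1

/-- **The stabiliser is trivial.** -/
theorem stab_bot (L : Lev S1 S2 H μ) [μ.IsMulRightInvariant] (z : Siz S2 μ) (hP : Pack z) (F : Fam S1) (hd : z.d = F.d1)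
    (htr : ∀ t ∈ F.Sg, t ∉ L.ker) {Ω : Type} [TopologicalSpace Ω] [CompactSpace Ω] [T2Space Ω]
    (G : GF L.V L.W (AZ L : Set (H →L[ℂ] H)) Ω) {ω : Ω} (hω : Cen L G ω) (hH : ∃ ζ : H, ‖ζ‖ = 1) : stab G ω = ⊥ := by
  classical
  by_contra hD
  obtain ⟨t, ht, htt⟩ := triv_of_approx L z F G fun m n v hv f ε hε => by
    -- bound of the functions
    obtain ⟨R, hR0, hR⟩ : ∃ R : ℝ, 0 < R ∧ ∀ j, ‖f j‖ ≤ R := by
      refine ⟨∑ j, ‖f j‖ + 1, by positivity, fun j => ?_⟩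
      have := Finset.single_le_sum (f := fun j => ‖f j‖) (fun i _ => norm_nonneg _) (Finset.mem_univ j)
      linarith
    set ε₁ : ℝ := ε ^ 2 / (8 * R ^ 2) with hε₁
    have hε₁0 : 0 < ε₁ := by positivity
    have hε₁2 : ε₁ * (4 * R ^ 2) ≤ ε ^ 2 / 2 := by
      rw [hε₁]
      apply le_of_eq
      field_simp
      ring
    obtain ⟨B, hB, hst⟩ := hω (Set.range v) (Set.finite_range v).isCompact (by
      rintro w ⟨i, rfl⟩
      exact hv i) ε₁ hε₁0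
    obtain ⟨B', hB', hmv⟩ := hω.move hH F.hB1
    obtain ⟨C₁, hC₁⟩ := hP (stab G ω) (nor G ω) (isClosed_stab G ω) hD (nor_stab G ω) B' hB'
    -- the neighbourhood of `1`
    have hU : {g : S2 | ∀ h ∈ B, ∀ j, |f j (G.a₂ (h * g) ω) - f j (G.a₂ h ω)| < ε / 2} ∈ 𝓝 (1 : S2) := by
      refine hB.eventually_forall_of_forall_eventually (x₀ := (1 : S2)) (P := fun g h => ∀ j, |f j (G.a₂ (h * g) ω) - f j (G.a₂ h ω)| < ε / 2)
        fun h hh => ?_
      rw [eventually_all]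
      intro j
      have k1 : Continuous fun p : S2 × S2 => |f j (G.a₂ (p.2 * p.1) ω) - f j (G.a₂ p.2 ω)| := by
        refine (Continuous.sub ((f j).continuous.comp (G.cont₂.comp (Continuous.prodMk (continuous_snd.mul continuous_fst) continuous_const)))
          ((f j).continuous.comp (G.cont₂.comp (Continuous.prodMk continuous_snd continuous_const)))).abs
      refine k1.continuousAt.eventually_lt continuousAt_const ?_
      change |f j (G.a₂ (h * 1) ω) - f j (G.a₂ h ω)| < ε / 2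
      rw [mul_one, sub_self, abs_zero]
      positivity
    obtain ⟨t, ht, g, hg, htg⟩ := pigeon2 G.a₁ G.a₂ G.one₁ G.mul₁ G.one₂ G.mul₂ G.comm z hd F.c_pos F.fam ω hmv
      (D := stab G ω) (N := nor G ω) (fun d hd => hd) (fun g s h => ⟨s, h⟩) hC₁ hU
    refine ⟨t, ht, fun i j => ?_⟩
    -- the function `Φ = f ∘ t - f`
    set Φ : C(Ω, ℝ) := tr1 L G t (f j) - f j with hΦ
    have e1 : cj (L.V t).symm (G.θ (f j)) (v i) - G.θ (f j) (v i) = G.θ Φ (v i) := by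
      rw [hΦ, G.sub, θ_tr1]
      rfl
    rw [e1]
    have e2 : ∀ h ∈ B, (Φ * Φ) (G.a₂ h ω) ≤ (ε / 2) ^ 2 := by
      intro h hh
      have k1 := hg h hh j
      have k2 : Φ (G.a₂ h ω) = f j (G.a₂ (h * g) ω) - f j (G.a₂ h ω) := by
        change f j (G.a₁ t (G.a₂ h ω)) - f j (G.a₂ h ω) = _
        rw [G.comm, htg, ← G.mul₂]
      rw [ContinuousMap.mul_apply, k2, ← abs_mul_abs_self, ← sq]
      exact pow_le_pow_left₀ (abs_nonneg _) k1.le 2
    have e3 : ‖Φ‖ ≤ 2 * R := by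
      rw [ContinuousMap.norm_le _ (by positivity)]
      intro ω'
      change ‖f j (G.a₁ t ω') - f j ω'‖ ≤ 2 * R
      refine (norm_sub_le _ _).trans ?_
      have k1 := (f j).norm_coe_le_norm (G.a₁ t ω')
      have k2 := (f j).norm_coe_le_norm ω'
      linarith [hR j]
    have e4 : ‖Φ * Φ‖ ≤ 4 * R ^ 2 := by
      refine (norm_mul_le _ _).trans ?_
      nlinarith [norm_nonneg Φ]
    have e5 := hst (v i) ⟨i, rfl⟩ (Φ * Φ) ((ε / 2) ^ 2) (fun ω => mul_self_nonneg (Φ ω)) (by positivity) e2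
    rw [GF.fn_apply, G.inner_mul_self] at e5
    have e6 : ε₁ * ‖Φ * Φ‖ ≤ ε ^ 2 / 2 := (mul_le_mul_of_nonneg_left e4 hε₁0.le).trans hε₁2
    have e7 : ‖G.θ Φ (v i)‖ ^ 2 ≤ ε ^ 2 := by nlinarith [sq_nonneg ε]
    exact abs_le_of_sq_le_sq' e7 hε.le |>.2
  exact htr t ht htt

end Pool.Agent.Helper8.EQ
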